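import Pool.Agent.Lib.MP_d439b2_co.NK.NK

/-!
# MP_d439b2_co, NK, Ad: REG for letters from REG for stable sets (`RG.S_REG`)
-/

set_option autoImplicit false

namespace Pool.Agent.MPd439b2.NK

open Pool.Agent.MPd439b2
open Pool.Agent.MPd439b2.Rep
open Pool.Agent.MPd439b2.F9
open Pool.Agent.MPd439b2.A0
open Pool.Agent.MPd439b2.CH

/-- REG for letters from REG for stable sets -/
theorem reg_of (h : ∀ w₀ : ℕ, ∃ c₀ : ℕ, ∀ β : ℕ → ℕ, ∃ n : ℕ, ∀ (V : Type) [Finite V]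
    (G : SimpleGraph V) (S W₀ : Set V), ¬ IMS K401 G Set.univ → Link β c₀ G → W₀.ncard ≤ w₀ →
      StO G S → n ≤ S.ncard → ¬ ∀ v, v ∉ W₀ → (∀ s ∈ S, G.Adj v s) ∨
        ∀ s ∈ S, ∀ s' ∈ S, G.Adj v s → G.Adj v s' → s = s') :
    ∀ β : ℕ → ℕ, ∃ c₀ n₀ : ℕ, ∀ (V : Type) [Finite V] (G : SimpleGraph V) (e : Bool → ℕ → V)
      (W : Set V), ¬ IMS K401 G Set.univ → Rep.Link β c₀ G → W.ncard ≤ 6 → ¬ Reg G n₀ e W := by
  intro β
  obtain ⟨c₀, hc⟩ := h 6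
  obtain ⟨n, hn⟩ := hc β
  refine ⟨c₀, n, fun V _ G e W hH hL hW hR => ?_⟩
  refine hn V G (e false '' Set.Iio n) W hH hL hW ?_ ?_ fun v hv => ?_
  · rintro u ⟨i, hi, rfl⟩ v ⟨j, hj, rfl⟩ h1
    exact ((hR.lt i hi j hj false false).1 h1).2 rfl
  · have hinj : Set.InjOn (e false) (Set.Iio n) := by
      intro i hi j hj hij
      by_contra hne
      exact hR.lt.ne hi hj hne false false hij
    rw [hinj.ncard_image]
    have : (Set.Iio n : Set ℕ) = ((Finset.range n : Finset ℕ) : Set ℕ) := by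
      ext x
      simp
    rw [this, Set.ncard_coe_finset, Finset.card_range]
  · rcases hR.reg v hv with h1 | h1
    · right
      rintro s ⟨i, hi, rfl⟩ s' ⟨j, hj, rfl⟩ h2 h3
      rw [h1 i hi j hj ⟨false, h2⟩ ⟨false, h3⟩]
    · left
      rintro s ⟨i, hi, rfl⟩
      exact h1 i hi false

end Pool.Agent.MPd439b2.NK
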