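import Pool.Agent.Lib.MP_d439b2_co.NK.Spec

/-!
# MP_d439b2_co, NK/Chn: from the greedy sequence to a chain
-/

set_option autoImplicit false

namespace Pool.Agent.MPd439b2.NK

open Pool.Agent.MPd439b2
open Pool.Agent.MPd439b2.Rep
open Pool.Agent.MPd439b2.F9
open Pool.Agent.MPd439b2.A0
open Pool.Agent.MPd439b2.CH

theorem nChn : S_Chn := by
  intro hR hPA hPB hCod hTab t m
  obtain ⟨K, hK⟩ := hCod hR hPA hPB t (2 * m + 4)
  refine ⟨K, fun V G n e hL hK4 hJ r v s h1 h2 => ?_⟩
  have key : ∀ e' : Bool → ℕ → V, Lt G n e' → (∀ i < K, s i < n ∧ ¬ G.Adj (v i) (e' false (s i))) →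
      (∀ i j, i < j → j < K → G.Adj (v i) (e' false (s j))) →
        ∃ (v' : ℕ → V) (e'' : Bool → ℕ → V), Ch G m v' e'' := by
    intro e' hL' h3 h4
    obtain ⟨v', e'', al, b1, b0, b2, hCP⟩ := hK V G n e' hL' hK4 hJ v s h3 h4
    obtain ⟨rfl, rfl, rfl⟩ := hTab V G (2 * m + 4) v' e'' al b1 b0 b2 (by omega) hCP hK4
    refine ⟨fun i => v' (2 * i + 1), fun s i => e'' s (2 * i), ch_of ?_ ?_ ?_⟩
    · exact hCP.lt.comp (fun i => 2 * i) (fun i hi => by omega) (fun i _ j _ h => by omega)
    · intro i hi j hj hij
      exact hCP.vv _ (by omega) _ (by omega) (by omega)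
    · intro i hi j hj s
      cases s with
      | false =>
        rw [hCP.f _ (by omega) _ (by omega)]
        constructor
        · rintro (h5 | h5)
          · omega
          · exact absurd h5.2 Bool.false_ne_true
        · intro h5
          exact Or.inl (by omega)
      | true =>
        rw [hCP.t _ (by omega) _ (by omega)]
        constructor
        · rintro (h5 | h5 | h5)
          · have := h5.1
            omega
          · have := h5.1
            omega
          · exact absurd h5.2 Bool.false_ne_true
        · intro h5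
          exact Or.inl ⟨by omega, rfl⟩
  cases r with
  | false => exact key e hL h1 h2
  | true => exact key (fun s i => e (!s) i) hL.flip h1 h2

end Pool.Agent.MPd439b2.NK
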