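import Pool.Agent.Lib.MP_d439b2_co.NK.Spec

/-!
# MP_d439b2_co, NK/Cod: constant codes
-/

set_option autoImplicit false

namespace Pool.Agent.MPd439b2.NK

open Pool.Agent.MPd439b2
open Pool.Agent.MPd439b2.Rep
open Pool.Agent.MPd439b2.F9
open Pool.Agent.MPd439b2.A0
open Pool.Agent.MPd439b2.CH

theorem nCod : S_Cod := by
  classical
  intro hR hPA hPB t m
  obtain ⟨K, hK⟩ := hR (Bool × Bool × Bool × Bool × Bool) (max (m + 3) (2 * t + 11))
  refine ⟨K, fun V G n e hL hK4 hJ v s h1 h2 => ?_⟩
  obtain ⟨σ, ⟨ep, al, b1, b0, b2⟩, hσ, hσK, hc⟩ := hK (fun i j =>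
    (decide (G.Adj (v i) (v j)), decide (G.Adj (v j) (e false (s i))),
      decide (G.Adj (v i) (e true (s j))), decide (G.Adj (v i) (e true (s i))),
      decide (G.Adj (v j) (e true (s i)))))
  have hm3 : m + 3 ≤ max (m + 3) (2 * t + 11) := le_max_left _ _
  have ht3 : 2 * t + 11 ≤ max (m + 3) (2 * t + 11) := le_max_right _ _
  generalize hM : max (m + 3) (2 * t + 11) = M at *
  simp only [Prod.mk.injEq] at hc
  have c0 : ∀ i j, i < j → j < M → (G.Adj (v (σ i)) (v (σ j)) ↔ ep = true) := fun i j hi hj => by
    rw [← (hc i j hi hj).1, decide_eq_true_iff]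
  have c1 : ∀ i j, i < j → j < M → (G.Adj (v (σ j)) (e false (s (σ i))) ↔ al = true) :=
    fun i j hi hj => by rw [← (hc i j hi hj).2.1, decide_eq_true_iff]
  have c2 : ∀ i j, i < j → j < M → (G.Adj (v (σ i)) (e true (s (σ j))) ↔ b1 = true) :=
    fun i j hi hj => by rw [← (hc i j hi hj).2.2.1, decide_eq_true_iff]
  have c3 : ∀ i j, i < j → j < M → (G.Adj (v (σ i)) (e true (s (σ i))) ↔ b0 = true) :=
    fun i j hi hj => by rw [← (hc i j hi hj).2.2.2.1, decide_eq_true_iff]
  have c4 : ∀ i j, i < j → j < M → (G.Adj (v (σ j)) (e true (s (σ i))) ↔ b2 = true) :=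
    fun i j hi hj => by rw [← (hc i j hi hj).2.2.2.2, decide_eq_true_iff]
  have hn : ∀ i < M, s (σ i) < n := fun i hi => (h1 _ (hσK i hi)).1
  have hd : ∀ i < M, ¬ G.Adj (v (σ i)) (e false (s (σ i))) := fun i hi => (h1 _ (hσK i hi)).2
  have hu : ∀ i j, i < j → j < M → G.Adj (v (σ i)) (e false (s (σ j))) := fun i j hij hj =>
    h2 _ _ (hσ i j hij hj) (hσK j hj)
  have hinj : ∀ i < M, ∀ j < M, s (σ i) = s (σ j) → i = j := by
    intro i hi j hj h
    by_contra hij
    rcases lt_or_gt_of_ne hij with h3 | h3
    · exact hd i hi (h ▸ hu i j h3 hj)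
    · exact hd j hj (h ▸ hu j i h3 hi)
  have hL' : Lt G M (fun r i => e r (s (σ i))) := hL.comp (fun i => s (σ i)) hn hinj
  have hf : ∀ i < M, ∀ j < M, (G.Adj (v (σ i)) (e false (s (σ j))) ↔ i < j ∨ (j < i ∧ al = true)) := by
    intro i hi j hj
    rcases lt_trichotomy i j with h3 | h3 | h3
    · exact iff_of_true (hu i j h3 hj) (Or.inl h3)
    · subst h3
      exact iff_of_false (hd i hi) (by omega)
    · rw [c1 j i h3 hi]
      constructor
      · intro h4
        exact Or.inr ⟨h3, h4⟩
      · rintro (h4 | h4)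
        · omega
        · exact h4.2
  cases ep with
  | false =>
    exfalso
    have sv : ∀ i < M, ∀ j < M, ¬ G.Adj (v (σ i)) (v (σ j)) := by
      intro i hi j hj h3
      rcases lt_trichotomy i j with h4 | h4 | h4
      · exact Bool.false_ne_true ((c0 i j h4 hj).1 h3)
      · rw [h4] at h3
        exact G.irrefl h3
      · exact Bool.false_ne_true ((c0 j i h4 hi).1 h3.symm)
    have sa : ∀ i < M, ∀ j < M, ¬ G.Adj (e false (s (σ i))) (e false (s (σ j))) := by
      intro i hi j hj h3
      exact ((hL' i hi j hj false false).1 h3).2 rfl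
    cases al with
    | false =>
      refine hK4 (hPA V G (fun i => e false (s (σ i))) (fun i => v (σ i))
        (fun i hi j hj => sa i (by omega) j (by omega)) (fun i hi j hj => sv i (by omega) j (by omega))
        (fun i hi j hj => ?_))
      rw [SimpleGraph.adj_comm, hf j (by omega) i (by omega)]
      constructor
      · rintro (h3 | h3)
        · exact h3
        · exact absurd h3.2 Bool.false_ne_true
      · exact Or.inl
    | true =>
      refine hJ (hPB t V G (fun i => v (σ i)) (fun i => e false (s (σ i)))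
        (fun i hi j hj => sv i (by omega) j (by omega)) (fun i hi j hj => sa i (by omega) j (by omega))
        (fun i hi j hj => ?_))
      rw [hf i (by omega) j (by omega)]
      constructor
      · rintro (h3 | h3) <;> omega
      · intro h3
        rcases lt_or_gt_of_ne h3 with h4 | h4
        · exact Or.inl h4
        · exact Or.inr ⟨h4, rfl⟩
  | true =>
    refine ⟨fun i => v (σ i), fun r i => e r (s (σ i)), al, b1, b0, b2, ?_, ?_, ?_, ?_, ?_⟩
    · exact hL'.mono (by omega)
    · intro i hi j hj r
      exact hL'.ne_of (i := m + 1) (j := m + 2) (k := j) (by omega) (by omega) (by omega) (by omega)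
        ⟨false, hu i (m + 1) (by omega) (by omega)⟩ ⟨false, hu i (m + 2) (by omega) (by omega)⟩ r
    · intro i hi j hj hij
      rcases lt_or_gt_of_ne hij with h4 | h4
      · exact (c0 i j h4 (by omega)).2 rfl
      · exact ((c0 j i h4 (by omega)).2 rfl).symm
    · exact fun i hi j hj => hf i (by omega) j (by omega)
    · intro i hi j hj
      rcases lt_trichotomy i j with h3 | h3 | h3
      · rw [c2 i j h3 (by omega)]
        constructor
        · intro h4
          exact Or.inl ⟨h3, h4⟩
        · rintro (h4 | h4 | h4)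
          · exact h4.2
          · omega
          · omega
      · subst h3
        rw [c3 i (i + 1) (by omega) (by omega)]
        constructor
        · intro h4
          exact Or.inr (Or.inl ⟨rfl, h4⟩)
        · rintro (h4 | h4 | h4)
          · omega
          · exact h4.2
          · omega
      · rw [c4 j i h3 (by omega)]
        constructor
        · intro h4
          exact Or.inr (Or.inr ⟨h3, h4⟩)
        · rintro (h4 | h4 | h4)
          · omega
          · omega
          · exact h4.2

end Pool.Agent.MPd439b2.NK
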