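import Pool.Agent.Lib.MP_d439b2_co.NK.Spec

/-!
# MP_d439b2_co, NK, Exc: at most three exceptional vertices
-/

set_option autoImplicit false

namespace Pool.Agent.MPd439b2.NK

open Pool.Agent.MPd439b2
open Pool.Agent.MPd439b2.Rep
open Pool.Agent.MPd439b2.F9
open Pool.Agent.MPd439b2.A0
open Pool.Agent.MPd439b2.CH

namespace ExcAux

variable {V : Type} {G : SimpleGraph V}

/-- the model -/
theorem model {n : ℕ} {e : Bool → ℕ → V} (h : Lt G n e) (r : Bool) {z : Fin 4 → V}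
    (hz : Function.Injective z) {i : Fin 3 → ℕ} (hi : Function.Injective i) (hn : ∀ k, i k < n)
    (h1 : ∀ k l, G.Adj (z k) (e r (i l))) (h2 : ∀ k l, ¬ G.Adj (z k) (e (!r) (i l))) :
    IMS K401 G Set.univ := by
  have hne : ∀ k l s, z k ≠ e s (i l) := fun k l s =>
    h.ne_of (hn 0) (hn 1) (hn l) (fun h3 => absurd (hi h3) (by decide)) ⟨r, h1 k 0⟩ ⟨r, h1 k 1⟩ s
  have hzz : ∀ k l, k ≠ l → z k ≠ z l := fun k l hkl h3 => hkl (hz h3)
  have hii : ∀ k l, k ≠ l → i k ≠ i l := fun k l hkl h3 => hkl (hi h3)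
  have hee : ∀ k l, k ≠ l → ∀ s t, e s (i k) ≠ e t (i l) := fun k l hkl s t =>
    h.ne (hn k) (hn l) (hii k l hkl) s t
  have hnn : ∀ k l, k ≠ l → ∀ s t, ¬ G.Adj (e s (i k)) (e t (i l)) := fun k l hkl s t =>
    h.nadj (hn k) (hn l) (hii k l hkl) s t
  have hft : ∀ k, e r (i k) ≠ e (!r) (i k) := fun k => h.ft (hn k) r
  have d22 : ∀ {a b c d : V}, a ≠ c → a ≠ d → b ≠ c → b ≠ d →
      Disjoint ({a, b} : Set V) {c, d} := by
    intro a b c d h3 h4 h5 h6
    rw [Set.disjoint_left]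
    rintro x (hx | hx) (hy | hy)
    · exact h3 (hx.symm.trans hy)
    · exact h4 (hx.symm.trans hy)
    · exact h5 (hx.symm.trans hy)
    · exact h6 (hx.symm.trans hy)
  have d21 : ∀ {a b c : V}, a ≠ c → b ≠ c → Disjoint ({a, b} : Set V) {c} := by
    intro a b c h3 h5
    rw [Set.disjoint_left]
    rintro x (hx | hx) hy
    · exact h3 (hx.symm.trans hy)
    · exact h5 (hx.symm.trans hy)
  have n21 : ∀ {a b c : V}, ¬ G.Adj a c → ¬ G.Adj b c → ¬ Tch G ({a, b} : Set V) {c} := by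
    rintro a b c h3 h5 ⟨x, hx | hx, y, hy, hxy⟩
    · rw [Set.mem_singleton_iff] at hy
      subst hx hy
      exact h3 hxy
    · rw [Set.mem_singleton_iff] at hx hy
      subst hx hy
      exact h5 hxy
  have n11 : ∀ {a c : V}, ¬ G.Adj a c → ¬ Tch G ({a} : Set V) {c} := by
    rintro a c h3 ⟨x, hx, y, hy, hxy⟩
    rw [Set.mem_singleton_iff] at hx hy
    subst hx hy
    exact h3 hxy
  refine aM1 V G {z 0, e r (i 0)} {z 1, e r (i 1)} {z 2, e r (i 2)} {z 3} {e (!r) (i 0)}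
    {e (!r) (i 1)} (Conn.pair (h1 0 0)) (Conn.pair (h1 1 1)) (Conn.pair (h1 2 2))
    (Conn.singleton G _) (Conn.singleton G _) (Conn.singleton G _)
    (d22 (hzz 0 1 (by decide)) (hne 0 1 r) (hne 1 0 r).symm (hee 0 1 (by decide) r r))
    (d22 (hzz 0 2 (by decide)) (hne 0 2 r) (hne 2 0 r).symm (hee 0 2 (by decide) r r))
    (d21 (hzz 0 3 (by decide)) (hne 3 0 r).symm)
    (d21 (hne 0 0 _) (hft 0))
    (d21 (hne 0 1 _) (hee 0 1 (by decide) r _))
    (d22 (hzz 1 2 (by decide)) (hne 1 2 r) (hne 2 1 r).symm (hee 1 2 (by decide) r r))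
    (d21 (hzz 1 3 (by decide)) (hne 3 1 r).symm)
    (d21 (hne 1 0 _) (hee 1 0 (by decide) r _))
    (d21 (hne 1 1 _) (hft 1))
    (d21 (hzz 2 3 (by decide)) (hne 3 2 r).symm)
    (d21 (hne 2 0 _) (hee 2 0 (by decide) r _))
    (d21 (hne 2 1 _) (hee 2 1 (by decide) r _))
    (Set.disjoint_singleton.2 (hne 3 0 _)) (Set.disjoint_singleton.2 (hne 3 1 _))
    (Set.disjoint_singleton.2 (hee 0 1 (by decide) _ _))
    ⟨z 0, Or.inl rfl, e r (i 1), Or.inr rfl, h1 0 1⟩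
    ⟨z 0, Or.inl rfl, e r (i 2), Or.inr rfl, h1 0 2⟩
    ⟨e r (i 0), Or.inr rfl, z 3, rfl, (h1 3 0).symm⟩
    ⟨z 1, Or.inl rfl, e r (i 2), Or.inr rfl, h1 1 2⟩
    ⟨e r (i 1), Or.inr rfl, z 3, rfl, (h1 3 1).symm⟩
    ⟨e r (i 2), Or.inr rfl, z 3, rfl, (h1 3 2).symm⟩
    ⟨e r (i 0), Or.inr rfl, e (!r) (i 0), rfl, h.adj (hn 0) r⟩
    ⟨e r (i 1), Or.inr rfl, e (!r) (i 1), rfl, h.adj (hn 1) r⟩
    (n21 (h2 0 1) (hnn 0 1 (by decide) _ _)) (n21 (h2 1 0) (hnn 1 0 (by decide) _ _))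
    (n21 (h2 2 0) (hnn 2 0 (by decide) _ _)) (n21 (h2 2 1) (hnn 2 1 (by decide) _ _))
    (n11 (h2 3 0)) (n11 (h2 3 1)) (n11 (hnn 0 1 (by decide) _ _))

end ExcAux

/-- **Exc.** -/
theorem nExc : S_Exc := by
  classical
  intro V _ G n e S L r h hS hL hno
  by_contra hcon
  push Not at hcon
  set X : Set V := {u | (∀ i ∈ S, G.Adj u (e r i)) ∧
    {i | i ∈ S ∧ G.Adj u (e (!r) i)}.ncard < L} with hX
  obtain ⟨Y, hYX, hY⟩ := Set.exists_subset_card_eq (show 4 ≤ X.ncard by omega)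
  have hfin : Y.Finite := Set.toFinite Y
  have hcard : hfin.toFinset.card = 4 := by
    rw [← Set.ncard_eq_toFinset_card Y hfin]
    exact hY
  let f := (Finset.equivFinOfCardEq hcard).symm
  let z : Fin 4 → V := fun k => (f k).1
  have hz : Function.Injective z := fun a b hab => f.injective (Subtype.ext hab)
  have hzX : ∀ k, z k ∈ X := fun k => hYX (hfin.mem_toFinset.1 (f k).2)
  -- the free indices
  have hb : ∀ k, (S.filter fun i => G.Adj (z k) (e (!r) i)).card < L := by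
    intro k
    have h1 := (hzX k).2
    have h2 : {i | i ∈ S ∧ G.Adj (z k) (e (!r) i)} =
        ((S.filter fun i => G.Adj (z k) (e (!r) i)) : Set ℕ) := by
      ext i
      simp
    rw [h2, Set.ncard_coe_finset] at h1
    exact h1
  let Bd : Finset ℕ := Finset.univ.biUnion fun k : Fin 4 =>
    S.filter fun i => G.Adj (z k) (e (!r) i)
  have hBd : Bd.card ≤ 4 * L := by
    refine (Finset.card_biUnion_le).trans ?_
    refine (Finset.sum_le_sum fun k _ => (hb k).le).trans ?_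
    simp
  have h3 : 3 ≤ (S \ Bd).card := by
    have := Finset.le_card_sdiff Bd S
    omega
  obtain ⟨T, hTS, hT⟩ := Finset.exists_subset_card_eq h3
  let g := (Finset.equivFinOfCardEq hT).symm
  let i : Fin 3 → ℕ := fun k => (g k).1
  have hi : Function.Injective i := fun a b hab => g.injective (Subtype.ext hab)
  have hiS : ∀ k, i k ∈ S \ Bd := fun k => hTS (g k).2
  refine hno (ExcAux.model h r hz hi (fun k => hS _ (Finset.mem_sdiff.1 (hiS k)).1)
    (fun k l => (hzX k).1 _ (Finset.mem_sdiff.1 (hiS l)).1) fun k l hkl => ?_)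
  exact (Finset.mem_sdiff.1 (hiS l)).2 (Finset.mem_biUnion.2 ⟨k, Finset.mem_univ k,
    Finset.mem_filter.2 ⟨(Finset.mem_sdiff.1 (hiS l)).1, hkl⟩⟩)

end Pool.Agent.MPd439b2.NK
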