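import Pool.Agent.Lib.MP_d439b2_co.NK.SpecR

/-!
# MP_d439b2_co, NK, NK: no large induced matchings in linked graphs (assembly)
-/

set_option autoImplicit false

namespace Pool.Agent.MPd439b2.NK

open Pool.Agent.MPd439b2
open Pool.Agent.MPd439b2.Rep
open Pool.Agent.MPd439b2.F9
open Pool.Agent.MPd439b2.A0
open Pool.Agent.MPd439b2.CH

/-- **NK.** -/
theorem nNK : S_NK := by
  intro h1 h2 h3 t β
  obtain ⟨c₁, m, hm⟩ := h1 t β
  obtain ⟨c₂, m', hm'⟩ := h3 β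
  obtain ⟨N, hN⟩ := h2 t m m'
  refine ⟨max c₁ c₂, N, fun V _ G hF hL a b hab => ?_⟩
  rcases hN V G _ hF.1 hF.2 (lt_of_tp hab) with ⟨v, e', h⟩ | ⟨e', W, h4, h5⟩
  · exact hm V G hF (link_mono (le_max_left _ _) hL) v e' h
  · exact hm' V G e' W hF.1 (link_mono (le_max_right _ _) hL) h4 h5

end Pool.Agent.MPd439b2.NK
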