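import Pool.Agent.Lib.MP_d439b2_co.NK.Spec

/-!
# MP_d439b2_co, NK, PtA: part A (assembly)
-/

set_option autoImplicit false

namespace Pool.Agent.MPd439b2.NK

open Pool.Agent.MPd439b2
open Pool.Agent.MPd439b2.Rep
open Pool.Agent.MPd439b2.F9
open Pool.Agent.MPd439b2.A0
open Pool.Agent.MPd439b2.CH

/-- a letter vertex is not complete to one side of at least two letters -/
private theorem out_aux {V : Type} {G : SimpleGraph V} {n : ℕ} {e : Bool → ℕ → V} (h : Lt G n e)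
    {S : Finset ℕ} (hS : ∀ i ∈ S, i < n) (h2 : 2 ≤ S.card) {k : ℕ} (hk : k < n) (s r : Bool) :
    ¬ ∀ i ∈ S, G.Adj (e s k) (e r i) := by
  intro h1
  obtain ⟨i, hi, j, hj, hij⟩ := Finset.one_lt_card.1 (show 1 < S.card by omega)
  have h3 := ((h k hk i (hS i hi) s r).1 (h1 i hi)).1
  have h4 := ((h k hk j (hS j hj) s r).1 (h1 j hj)).1
  exact hij (h3.symm.trans h4)

private theorem ncard_sub {p q : ℕ → Prop} {S T : Finset ℕ} (h : ∀ i ∈ S, p i → i ∈ T ∧ q i) :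
    {i | i ∈ S ∧ p i}.ncard ≤ {i | i ∈ T ∧ q i}.ncard :=
  Set.ncard_le_ncard (fun i hi => h i hi.1 hi.2) (T.finite_toSet.subset fun _ hi => hi.1)

/-- **PtA.** -/
theorem nPtA : S_PtA := by
  classical
  intro ram ram3 gre exc six chn t m m'
  obtain ⟨K, hK⟩ := chn t m
  choose M hM using fun L => six ram ram3 m' L
  let g : ℕ → ℕ := fun L => max (M L) (4 * L + 4)
  choose N₂ hN₂ using fun x : ℕ => gre (fun y => g (x + y)) K
  obtain ⟨N, hN⟩ := gre N₂ K
  refine ⟨N, fun V _ G e hH hJ hlt => ?_⟩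
  rcases hN V (fun u i => G.Adj u (e false i)) (e false 0) (Finset.range N)
      (by rw [Finset.card_range]) with ⟨v, s, h1, h2⟩ | ⟨S₁, hS₁, L₁, hL₁, h1⟩
  · obtain ⟨v', e', h⟩ := hK V G N e hlt hH hJ false v s
      (fun i hi => ⟨Finset.mem_range.1 (h1 i hi).1, (h1 i hi).2⟩) h2
    exact Or.inl ⟨v', e', h⟩
  have hS₁N : ∀ i ∈ S₁, i < N := fun i hi => Finset.mem_range.1 (hS₁ hi)
  rcases hN₂ L₁ V (fun u i => G.Adj u (e true i)) (e false 0) S₁ hL₁ with
    ⟨v, s, h2, h3⟩ | ⟨S₂, hS₂, L₂, hL₂, h2⟩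
  · obtain ⟨v', e', h⟩ := hK V G N e hlt hH hJ true v s
      (fun i hi => ⟨hS₁N _ (h2 i hi).1, (h2 i hi).2⟩) h3
    exact Or.inl ⟨v', e', h⟩
  right
  have hS₂N : ∀ i ∈ S₂, i < N := fun i hi => hS₁N i (hS₂ hi)
  obtain ⟨L, hL⟩ : ∃ L, L = L₁ + L₂ := ⟨_, rfl⟩
  have hg : g L ≤ S₂.card := by
    rw [hL]
    exact hL₂
  have hgM : M L ≤ S₂.card := (le_max_left _ _).trans hg
  have hg4 : 4 * L + 4 ≤ S₂.card := (le_max_right _ _).trans hg
  let W : Bool → Set V := fun r => {u | (∀ i ∈ S₂, G.Adj u (e r i)) ∧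
    {i | i ∈ S₂ ∧ G.Adj u (e (!r) i)}.ncard < L}
  have hW : ∀ r, (W r).ncard ≤ 3 := fun r => exc V G N e S₂ L r hlt hS₂N hg4 hH
  obtain ⟨σ, hσ, hinj, hlow⟩ := hM L V G N e S₂ {u | {i | i ∈ S₂ ∧ Tc G e u i}.ncard < L} hlt
    hS₂N hgM hH (fun u hu => hu)
  refine ⟨fun s i => e s (σ i), W false ∪ W true, ?_, ?_, ?_, ?_⟩
  · have := Set.ncard_union_le (W false) (W true)
    have h3 := hW false
    have h4 := hW true
    omega
  · exact hlt.comp σ (fun i hi => hS₂N _ (hσ i hi)) hinj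
  · rintro i hi s (h3 | h3)
    · exact out_aux hlt hS₂N (by omega) (hS₂N _ (hσ i hi)) s false h3.1
    · exact out_aux hlt hS₂N (by omega) (hS₂N _ (hσ i hi)) s true h3.1
  · intro u hu
    have hu1 : u ∉ W false := fun h => hu (Or.inl h)
    have hu2 : u ∉ W true := fun h => hu (Or.inr h)
    have key : {i | i ∈ S₂ ∧ Tc G e u i}.ncard ≤ {i | i ∈ S₂ ∧ G.Adj u (e false i)}.ncard +
        {i | i ∈ S₂ ∧ G.Adj u (e true i)}.ncard := by
      refine le_trans (Set.ncard_le_ncard ?_ ?_) (Set.ncard_union_le _ _)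
      · rintro i ⟨hi, s, hs⟩
        cases s
        · exact Or.inl ⟨hi, hs⟩
        · exact Or.inr ⟨hi, hs⟩
      · exact (S₂.finite_toSet.subset fun _ hi => hi.1).union
          (S₂.finite_toSet.subset fun _ hi => hi.1)
    have hlw : {i | i ∈ S₂ ∧ Tc G e u i}.ncard < L → Lw G m' (fun s i => e s (σ i)) u :=
      fun h i hi j hj h3 h4 => hlow u h i hi j hj h3 h4
    rcases h1 u with h3 | h3
    · have h3' : ∀ i ∈ S₂, G.Adj u (e false i) := fun i hi => h3 i (hS₂ hi)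
      rcases h2 u with h4 | h4
      · right
        intro i hi s
        cases s
        · exact h3' _ (hσ i hi)
        · exact h4 _ (hσ i hi)
      · refine absurd (show u ∈ W false from ⟨h3', ?_⟩) hu1
        show {i | i ∈ S₂ ∧ G.Adj u (e true i)}.ncard < L
        omega
    · have h3' : {i | i ∈ S₂ ∧ G.Adj u (e false i)}.ncard < L₁ :=
        (ncard_sub (fun i hi h => ⟨hS₂ hi, h⟩)).trans_lt h3
      rcases h2 u with h4 | h4
      · refine absurd (show u ∈ W true from ⟨h4, ?_⟩) hu2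
        show {i | i ∈ S₂ ∧ G.Adj u (e false i)}.ncard < L
        omega
      · left
        apply hlw
        omega

end Pool.Agent.MPd439b2.NK
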