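import Pool.Agent.Lib.MP_d439b2_co.NK.Spec

/-!
# MP_d439b2_co, NK: Six, thinning out
-/

set_option autoImplicit false

namespace Pool.Agent.MPd439b2.NK

open Pool.Agent.MPd439b2
open Pool.Agent.MPd439b2.Rep
open Pool.Agent.MPd439b2.F9
open Pool.Agent.MPd439b2.A0
open Pool.Agent.MPd439b2.CH

namespace SixM

variable {V : Type} {G : SimpleGraph V} {n : ℕ} {e : Bool → ℕ → V}

/-- a letter and some of the vertices `Z p q` -/
private def BS (e : Bool → ℕ → V) (y : ℕ → ℕ) (Z : ℕ → ℕ → V) (p : ℕ) (F : Finset ℕ) : Set V :=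
  Pr e (y p) ∪ {u | ∃ q ∈ F, p < q ∧ q < 6 ∧ u = Z p q}

private structure Six (G : SimpleGraph V) (n : ℕ) (e : Bool → ℕ → V) (y : ℕ → ℕ) (Z : ℕ → ℕ → V) :
    Prop where
  lt : Lt G n e
  yn : ∀ p < 6, y p < n
  yi : ∀ p < 6, ∀ q < 6, p ≠ q → y p ≠ y q
  zt : ∀ p q, p < q → q < 6 → Tc G e (Z p q) (y p) ∧ Tc G e (Z p q) (y q)
  zn : ∀ p q, p < q → q < 6 → ∀ k < 6, k ≠ p → k ≠ q → ¬ Tc G e (Z p q) (y k)

private theorem conn_many {A : Set V} (hA : Conn G A) {F : Set V} (hF : ∀ u ∈ F, ∃ a ∈ A, G.Adj a u) :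
    Conn G (A ∪ F) := by
  refine ⟨hA.1.mono Set.subset_union_left, ?_⟩
  intro B hB hBn hBne
  by_cases h1 : A ⊆ B
  · -- some vertex of F is not in B
    have h2 : ∃ u ∈ A ∪ F, u ∉ B := by
      by_contra hcon
      push Not at hcon
      exact hBne (Set.Subset.antisymm hB hcon)
    obtain ⟨u, hu, huB⟩ := h2
    have huF : u ∈ F := by
      rcases hu with hu | hu
      · exact absurd (h1 hu) huB
      · exact hu
    obtain ⟨a, ha, hau⟩ := hF u huF
    exact ⟨a, h1 ha, u, ⟨Or.inr huF, huB⟩, hau⟩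
  · by_cases h2 : (B ∩ A).Nonempty
    · have h3 : B ∩ A ≠ A := fun h => h1 (by
        intro x hx
        rw [← h] at hx
        exact hx.1)
      obtain ⟨b, hb, a, ha, hab⟩ := hA.2 (B ∩ A) Set.inter_subset_right h2 h3
      exact ⟨b, hb.1, a, ⟨Or.inl ha.1, fun h => ha.2 ⟨h, ha.1⟩⟩, hab⟩
    · obtain ⟨b, hb⟩ := hBn
      have hbF : b ∈ F := by
        rcases hB hb with h | h
        · exact absurd ⟨b, hb, h⟩ h2
        · exact h
      obtain ⟨a, ha, hau⟩ := hF b hbF
      exact ⟨b, hb, a, ⟨Or.inl ha, fun h => h2 ⟨a, h, ha⟩⟩, hau.symm⟩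

private theorem tcadj {u : V} {i : ℕ} (h : Tc G e u i) : ∃ a ∈ Pr e i, G.Adj a u := by
  obtain ⟨s, hs⟩ := h
  exact ⟨e s i, mem_Pr s i, hs.symm⟩

variable {y : ℕ → ℕ} {Z : ℕ → ℕ → V}

private theorem Six.cn (h : Six G n e y Z) {p : ℕ} (hp : p < 6) (F : Finset ℕ) :
    Conn G (BS e y Z p F) := by
  refine conn_many (h.lt.conn (h.yn p hp)) ?_
  rintro u ⟨q, _, hpq, hq, rfl⟩
  exact tcadj (h.zt p q hpq hq).1

private theorem Six.zl (h : Six G n e y Z) {p q k : ℕ} (hpq : p < q) (hq : q < 6) (hk : k < 6)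
    (s : Bool) : Z p q ≠ e s (y k) :=
  h.lt.ne_of (h.yn p (by omega)) (h.yn q hq) (h.yn k hk) (h.yi p (by omega) q hq (by omega))
    (h.zt p q hpq hq).1 (h.zt p q hpq hq).2 s

private theorem Six.ds (h : Six G n e y Z) {p q : ℕ} (hp : p < 6) (hq : q < 6) (hpq : p ≠ q)
    (F F' : Finset ℕ) : Disjoint (BS e y Z p F) (BS e y Z q F') := by
  rw [Set.disjoint_left]
  rintro x (hx | ⟨r, _, hr, hr6, rfl⟩) (hy | ⟨r', _, hr', hr6', h2⟩)
  · exact Set.disjoint_left.1 (h.lt.dis (h.yn p hp) (h.yn q hq) (h.yi p hp q hq hpq)) hx hy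
  · obtain ⟨s, rfl⟩ := hx
    exact h.zl hr' hr6' hp s h2.symm
  · obtain ⟨s, hs⟩ := hy
    exact h.zl hr hr6 hq s hs
  · -- Z p r = Z q r'
    have h3 := h.zt p r hr hr6
    have h4 := h.zt q r' hr' hr6'
    by_cases h5 : r = q
    · -- p < q = r < r'
      have h6 := h.zn q r' hr' hr6' p hp hpq (by omega)
      rw [← h2] at h6
      exact h6 h3.1
    · have h6 := h.zn p r hr hr6 q hq (Ne.symm hpq) (Ne.symm h5)
      rw [h2] at h6
      exact h6 h4.1

private theorem Six.tc (h : Six G n e y Z) {p q : ℕ} (hpq : p < q) (hq : q < 6) {F : Finset ℕ}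
    (hF : q ∈ F) (F' : Finset ℕ) : Tch G (BS e y Z p F) (BS e y Z q F') := by
  obtain ⟨s, hs⟩ := (h.zt p q hpq hq).2
  exact ⟨Z p q, Or.inr ⟨q, hF, hpq, hq, rfl⟩, e s (y q), Or.inl (mem_Pr s _), hs⟩

private theorem Six.nt (h : Six G n e y Z) {p q : ℕ} (hp : p < 6) (hq : q < 6) (hpq : p ≠ q)
    {F : Finset ℕ} (hF : q ∉ F) : ¬ Tch G (BS e y Z p F) (BS e y Z q ∅) := by
  rintro ⟨x, hx, z, hz | ⟨r, hr, _⟩, hxz⟩
  · rcases hx with hx | ⟨r, hr, hr1, hr2, rfl⟩
    · exact h.lt.ntch (h.yn p hp) (h.yn q hq) (h.yi p hp q hq hpq) ⟨x, hx, z, hz, hxz⟩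
    · obtain ⟨s, rfl⟩ := hz
      exact h.zn p r hr1 hr2 q hq (Ne.symm hpq) (fun h' => hF (h' ▸ hr)) ⟨s, hxz⟩
  · simp at hr

private theorem Six.ims (h : Six G n e y Z) : IMS K401 G Set.univ := by
  exact aM1 V G (BS e y Z 0 {1, 2, 3, 4}) (BS e y Z 1 {2, 3, 5}) (BS e y Z 2 {3})
    (BS e y Z 3 ∅) (BS e y Z 4 ∅) (BS e y Z 5 ∅)
    (h.cn (by decide) _) (h.cn (by decide) _) (h.cn (by decide) _) (h.cn (by decide) _)
    (h.cn (by decide) _) (h.cn (by decide) _)
    (h.ds (by decide) (by decide) (by decide) _ _) (h.ds (by decide) (by decide) (by decide) _ _)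
    (h.ds (by decide) (by decide) (by decide) _ _) (h.ds (by decide) (by decide) (by decide) _ _)
    (h.ds (by decide) (by decide) (by decide) _ _) (h.ds (by decide) (by decide) (by decide) _ _)
    (h.ds (by decide) (by decide) (by decide) _ _) (h.ds (by decide) (by decide) (by decide) _ _)
    (h.ds (by decide) (by decide) (by decide) _ _) (h.ds (by decide) (by decide) (by decide) _ _)
    (h.ds (by decide) (by decide) (by decide) _ _) (h.ds (by decide) (by decide) (by decide) _ _)
    (h.ds (by decide) (by decide) (by decide) _ _) (h.ds (by decide) (by decide) (by decide) _ _)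
    (h.ds (by decide) (by decide) (by decide) _ _)
    (h.tc (by decide) (by decide) (by decide) _) (h.tc (by decide) (by decide) (by decide) _)
    (h.tc (by decide) (by decide) (by decide) _) (h.tc (by decide) (by decide) (by decide) _)
    (h.tc (by decide) (by decide) (by decide) _) (h.tc (by decide) (by decide) (by decide) _)
    (h.tc (by decide) (by decide) (by decide) _) (h.tc (by decide) (by decide) (by decide) _)
    (h.nt (by decide) (by decide) (by decide) (by decide))
    (h.nt (by decide) (by decide) (by decide) (by decide))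
    (h.nt (by decide) (by decide) (by decide) (by decide))
    (h.nt (by decide) (by decide) (by decide) (by decide))
    (h.nt (by decide) (by decide) (by decide) (by decide))
    (h.nt (by decide) (by decide) (by decide) (by decide))
    (h.nt (by decide) (by decide) (by decide) (by decide))

private theorem big {S : Finset ℕ} {u : V} {L : ℕ} {T : ℕ → ℕ}
    (h1 : ∀ k < L, T k ∈ S ∧ Tc G e u (T k)) (h2 : ∀ k < L, ∀ l < L, T k = T l → k = l) :
    L ≤ {i | i ∈ S ∧ Tc G e u i}.ncard := by
  have h3 : ((Finset.range L).image T : Set ℕ) ⊆ {i | i ∈ S ∧ Tc G e u i} := by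
    intro x hx
    rw [Finset.mem_coe, Finset.mem_image] at hx
    obtain ⟨k, hk, rfl⟩ := hx
    exact h1 k (Finset.mem_range.1 hk)
  have h4 : {i | i ∈ S ∧ Tc G e u i}.Finite := S.finite_toSet.subset fun i hi => hi.1
  have h5 := Set.ncard_le_ncard h3 h4
  rw [Set.ncard_coe_finset, Finset.card_image_of_injOn, Finset.card_range] at h5
  · exact h5
  · intro k hk l hl h6
    exact h2 k (Finset.mem_range.1 (Finset.mem_coe.1 hk)) l
      (Finset.mem_range.1 (Finset.mem_coe.1 hl)) h6

private theorem enum (S : Finset ℕ) : ∃ x : ℕ → ℕ, (∀ i < S.card, x i ∈ S) ∧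
    ∀ i < S.card, ∀ j < S.card, x i = x j → i = j := by
  refine ⟨fun i => if h : i < S.card then (S.orderEmbOfFin rfl ⟨i, h⟩ : ℕ) else 0, ?_, ?_⟩
  · intro i hi
    simp only [hi, dif_pos]
    exact Finset.orderEmbOfFin_mem S rfl _
  · intro i hi j hj h
    simp only [hi, hj, dif_pos] at h
    have := (S.orderEmbOfFin rfl).injective h
    exact Fin.mk.inj_iff.1 this

end SixM

open SixM in
theorem nSix : S_Six := by
  classical
  intro hR hR3 m L
  obtain ⟨m₃, hm₃⟩ := hR3 (Bool × Bool × Bool) (L + 6)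
  obtain ⟨M, hM⟩ := hR Bool (max m m₃)
  refine ⟨M, ?_⟩
  intro V G n e S Q hlt hSn hMS hims hQ
  obtain ⟨x, hxS, hxi⟩ := enum S
  obtain ⟨σ, c, hσ, hσM, hσc⟩ := hM fun i j => decide (∃ u ∈ Q, Tc G e u (x i) ∧ Tc G e u (x j))
  have hxS' : ∀ i < max m m₃, x (σ i) ∈ S := fun i hi => hxS _ ((hσM i hi).trans_le hMS)
  have hxi' : ∀ i < max m m₃, ∀ j < max m m₃, x (σ i) = x (σ j) → i = j := by
    intro i hi j hj h
    have h1 := hxi _ ((hσM i hi).trans_le hMS) _ ((hσM j hj).trans_le hMS) h
    rcases lt_trichotomy i j with h2 | h2 | h2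
    · exact absurd h1 (hσ i j h2 hj).ne
    · exact h2
    · exact absurd h1 (hσ j i h2 hi).ne'
  cases c with
  | false =>
    refine ⟨fun i => x (σ i), fun i hi => hxS' i (hi.trans_le (le_max_left _ _)), fun i hi j hj =>
      hxi' i (hi.trans_le (le_max_left _ _)) j (hj.trans_le (le_max_left _ _)), ?_⟩
    intro u hu i hi j hj h1 h2
    by_contra hij
    rcases lt_or_gt_of_ne hij with h3 | h3
    · have h4 := hσc i j h3 (hj.trans_le (le_max_left _ _))
      rw [decide_eq_false_iff_not] at h4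
      exact h4 ⟨u, hu, h1, h2⟩
    · have h4 := hσc j i h3 (hi.trans_le (le_max_left _ _))
      rw [decide_eq_false_iff_not] at h4
      exact h4 ⟨u, hu, h2, h1⟩
  | true =>
    exfalso
    have h1 : ∀ i j, ∃ u, i < j → j < m₃ →
        u ∈ Q ∧ Tc G e u (x (σ i)) ∧ Tc G e u (x (σ j)) := by
      intro i j
      by_cases h : i < j ∧ j < m₃
      · have h4 := hσc i j h.1 (h.2.trans_le (le_max_right _ _))
        rw [decide_eq_true_iff] at h4
        obtain ⟨u, hu, h5⟩ := h4
        exact ⟨u, fun _ _ => ⟨hu, h5⟩⟩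
      · exact ⟨e false 0, fun h2 h3 => absurd ⟨h2, h3⟩ h⟩
    choose z hz using h1
    obtain ⟨τ, c, hτ, hτM, hτc⟩ := hm₃ fun i j k =>
      (decide (Tc G e (z i j) (x (σ k))), decide (Tc G e (z i k) (x (σ j))),
        decide (Tc G e (z j k) (x (σ i))))
    have hlt' : ∀ k < L + 6, τ k < max m m₃ := fun k hk => (hτM k hk).trans_le (le_max_right _ _)
    have hyS : ∀ k < L + 6, x (σ (τ k)) ∈ S := fun k hk => hxS' _ (hlt' k hk)
    have hyi : ∀ k < L + 6, ∀ l < L + 6, x (σ (τ k)) = x (σ (τ l)) → k = l := by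
      intro i hi j hj h
      have h1 := hxi' _ (hlt' i hi) _ (hlt' j hj) h
      rcases lt_trichotomy i j with h2 | h2 | h2
      · exact absurd h1 (hτ i j h2 hj).ne
      · exact h2
      · exact absurd h1 (hτ j i h2 hi).ne'
    obtain ⟨c1, c2, c3⟩ := c
    have hc : ∀ i j k, i < j → j < k → k < L + 6 →
        (decide (Tc G e (z (τ i) (τ j)) (x (σ (τ k)))) = c1) ∧
        (decide (Tc G e (z (τ i) (τ k)) (x (σ (τ j)))) = c2) ∧
        (decide (Tc G e (z (τ j) (τ k)) (x (σ (τ i)))) = c3) := by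
      intro i j k hij hjk hk
      have h2 := hτc i j k hij hjk hk
      rw [Prod.mk.injEq, Prod.mk.injEq] at h2
      exact h2
    have hzQ : ∀ i j, i < j → j < L + 6 → z (τ i) (τ j) ∈ Q := fun i j hij hj =>
      (hz _ _ (hτ i j hij hj) (hτM j hj)).1
    -- the three components are false
    have e1 : c1 = false := by
      cases hc1 : c1 with
      | false => rfl
      | true =>
        exfalso
        have h3 : L ≤ {i | i ∈ S ∧ Tc G e (z (τ 0) (τ 1)) i}.ncard := by
          apply big (T := fun k => x (σ (τ (k + 2))))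
          · intro k hk
            refine ⟨hyS _ (by omega), ?_⟩
            have h4 := (hc 0 1 (k + 2) (by omega) (by omega) (by omega)).1
            rw [hc1, decide_eq_true_iff] at h4
            exact h4
          · intro k hk l hl h4
            have := hyi _ (by omega) _ (by omega) h4
            omega
        have h5 := hQ _ (hzQ 0 1 (by omega) (by omega))
        omega
    have e2 : c2 = false := by
      cases hc2 : c2 with
      | false => rfl
      | true =>
        exfalso
        have h3 : L ≤ {i | i ∈ S ∧ Tc G e (z (τ 0) (τ (L + 5))) i}.ncard := by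
          apply big (T := fun k => x (σ (τ (k + 1))))
          · intro k hk
            refine ⟨hyS _ (by omega), ?_⟩
            have h4 := (hc 0 (k + 1) (L + 5) (by omega) (by omega) (by omega)).2.1
            rw [hc2, decide_eq_true_iff] at h4
            exact h4
          · intro k hk l hl h4
            have := hyi _ (by omega) _ (by omega) h4
            omega
        have h5 := hQ _ (hzQ 0 (L + 5) (by omega) (by omega))
        omega
    have e3 : c3 = false := by
      cases hc3 : c3 with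
      | false => rfl
      | true =>
        exfalso
        have h3 : L ≤ {i | i ∈ S ∧ Tc G e (z (τ (L + 4)) (τ (L + 5))) i}.ncard := by
          apply big (T := fun k => x (σ (τ k)))
          · intro k hk
            refine ⟨hyS _ (by omega), ?_⟩
            have h4 := (hc k (L + 4) (L + 5) (by omega) (by omega) (by omega)).2.2
            rw [hc3, decide_eq_true_iff] at h4
            exact h4
          · intro k hk l hl h4
            exact hyi _ (by omega) _ (by omega) h4
        have h5 := hQ _ (hzQ (L + 4) (L + 5) (by omega) (by omega))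
        omega
    subst e1 e2 e3
    refine hims (Six.ims (n := n) (e := e) (y := fun k => x (σ (τ k)))
      (Z := fun p q => z (τ p) (τ q)) ⟨hlt, ?_, ?_, ?_, ?_⟩)
    · exact fun p hp => hSn _ (hyS p (by omega))
    · exact fun p hp q hq hpq h => hpq (hyi p (by omega) q (by omega) h)
    · exact fun p q hpq hq => (hz _ _ (hτ p q hpq (by omega)) (hτM q (by omega))).2
    · intro p q hpq hq k hk hkp hkq
      rcases lt_or_gt_of_ne hkp with h3 | h3
      · have h4 := (hc k p q h3 hpq (by omega)).2.2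
        rw [decide_eq_false_iff_not] at h4
        exact h4
      · rcases lt_or_gt_of_ne hkq with h5 | h5
        · have h4 := (hc p k q h3 h5 (by omega)).2.1
          rw [decide_eq_false_iff_not] at h4
          exact h4
        · have h4 := (hc p q k hpq h5 (by omega)).1
          rw [decide_eq_false_iff_not] at h4
          exact h4

end Pool.Agent.MPd439b2.NK
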