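import Pool.Agent.Lib.MP_d439b2_co.NK.Spec
import Pool.Agent.Lib.MP_d439b2_co.HC.EngC

/-!
# MP_d439b2_co, NK/Tab: the table of the codes
-/

set_option autoImplicit false

namespace Pool.Agent.MPd439b2.NK

open Pool.Agent.MPd439b2
open Pool.Agent.MPd439b2.Rep
open Pool.Agent.MPd439b2.F9
open Pool.Agent.MPd439b2.A0
open Pool.Agent.MPd439b2.CH

namespace TabX

/-- the pattern of the vertices `v i = i`, `e false i = 4 + i`, `e true i = 8 + i` (`i < 4`) -/
def rr (al b1 b0 b2 : Bool) (i j : ℕ) : Bool :=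
  bif Nat.blt i 4 then true
  else bif Nat.blt i 8 then
    (bif Nat.blt j 4 then Nat.blt (j + 4) i || (Nat.blt i (j + 4) && al) else false)
  else bif Nat.blt j 4 then
    (Nat.blt (j + 8) i && b1) || (Nat.beq (j + 8) i && b0) || (Nat.blt i (j + 8) && b2)
  else bif Nat.blt j 8 then Nat.beq (j + 4) i
  else false

/-- the certificates -/
def crt (al b1 b0 b2 : Bool) : List (List ℕ) :=
  match al, b1, b0, b2 with
  | false, false, false, _ => [[0], [7], [1], [2], [5], [11]]
  | false, false, true, false => [[0, 8], [1], [2], [7], [4], [9]]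
  | false, true, false, true => [[0], [1], [6], [10], [5], [8]]
  | false, _, true, true => [[8], [0], [1], [2], [4], [5]]
  | false, _, _, _ => []
  | true, false, false, false => [[4, 1], [5, 0], [2], [3], [8], [9]]
  | true, true, false, false => [[1], [0], [6], [10], [4], [9]]
  | true, false, true, false => [[0], [2], [1], [7], [8], [10]]
  | true, true, true, false => [[1], [0], [6], [10], [4], [5]]
  | true, true, false, true => [[2], [0], [5], [9], [8], [10]]
  | true, _, _, _ => [[2], [1], [4], [8], [5], [6]]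

theorem tab : ∀ al b1 b0 b2 : Bool, (al = false ∧ b1 = true ∧ b2 = false) ∨
    HC.chkG 12 6 (rr al b1 b0 b2) HC.r7 (crt al b1 b0 b2) = true := by
  decide

variable {V : Type} {G : SimpleGraph V}

theorem sp_k401 {S : ℕ → Set V} (h : BU.SP G Set.univ 6 S HC.r7) : IMS K401 G Set.univ := by
  have hd : ∀ i < 6, ∀ j < i, Disjoint (S j) (S i) := fun i hi j hj => (h.dis i hi j hj).symm
  have ht : ∀ i < 6, ∀ j < i, (Tch G (S j) (S i) ↔ HC.r7 i j = true) := fun i hi j hj => by
    rw [tch_comm]
    exact h.tch i hi j hj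
  refine aM1 V G (S 0) (S 1) (S 2) (S 3) (S 4) (S 5) (h.conn 0 (by omega)) (h.conn 1 (by omega))
    (h.conn 2 (by omega)) (h.conn 3 (by omega)) (h.conn 4 (by omega)) (h.conn 5 (by omega))
    (hd 1 (by omega) 0 (by omega)) (hd 2 (by omega) 0 (by omega)) (hd 3 (by omega) 0 (by omega))
    (hd 4 (by omega) 0 (by omega)) (hd 5 (by omega) 0 (by omega)) (hd 2 (by omega) 1 (by omega))
    (hd 3 (by omega) 1 (by omega)) (hd 4 (by omega) 1 (by omega)) (hd 5 (by omega) 1 (by omega))
    (hd 3 (by omega) 2 (by omega)) (hd 4 (by omega) 2 (by omega)) (hd 5 (by omega) 2 (by omega))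
    (hd 4 (by omega) 3 (by omega)) (hd 5 (by omega) 3 (by omega)) (hd 5 (by omega) 4 (by omega))
    ((ht 1 (by omega) 0 (by omega)).2 (by decide)) ((ht 2 (by omega) 0 (by omega)).2 (by decide))
    ((ht 3 (by omega) 0 (by omega)).2 (by decide)) ((ht 2 (by omega) 1 (by omega)).2 (by decide))
    ((ht 3 (by omega) 1 (by omega)).2 (by decide)) ((ht 3 (by omega) 2 (by omega)).2 (by decide))
    ((ht 4 (by omega) 0 (by omega)).2 (by decide)) ((ht 5 (by omega) 1 (by omega)).2 (by decide))
    ?_ ?_ ?_ ?_ ?_ ?_ ?_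
  · rw [ht 5 (by omega) 0 (by omega)]; decide
  · rw [ht 4 (by omega) 1 (by omega)]; decide
  · rw [ht 4 (by omega) 2 (by omega)]; decide
  · rw [ht 5 (by omega) 2 (by omega)]; decide
  · rw [ht 4 (by omega) 3 (by omega)]; decide
  · rw [ht 5 (by omega) 3 (by omega)]; decide
  · rw [ht 5 (by omega) 4 (by omega)]; decide

end TabX

open TabX in
theorem nTab : S_Tab := by
  intro V G m v e al b1 b0 b2 hm h hK
  rcases tab al b1 b0 b2 with h1 | h1
  · exact h1
  exfalso
  -- the vertices
  let f : ℕ → V := fun i => if i < 4 then v i else if i < 8 then e false (i - 4) else e true (i - 8)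
  have f0 : ∀ i, i < 4 → f i = v i := fun i hi => if_pos hi
  have f1 : ∀ i, 4 ≤ i → i < 8 → f i = e false (i - 4) := fun i h1 h2 => by
    show (if i < 4 then _ else _) = _
    rw [if_neg (by omega), if_pos h2]
  have f2 : ∀ i, 8 ≤ i → f i = e true (i - 8) := fun i h1 => by
    show (if i < 4 then _ else _) = _
    rw [if_neg (by omega), if_neg (by omega)]
  have hne : ∀ i < 12, ∀ j < i, f i ≠ f j := by
    intro i hi j hj
    by_cases h4 : i < 4
    · rw [f0 i h4, f0 j (by omega)]
      exact (h.vv i (by omega) j (by omega) (by omega)).ne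
    by_cases h8 : i < 8
    · rw [f1 i (by omega) h8]
      by_cases h4' : j < 4
      · rw [f0 j h4']
        exact (h.ne j (by omega) (i - 4) (by omega) false).symm
      · rw [f1 j (by omega) (by omega)]
        exact h.lt.ne (by omega) (by omega) (by omega) _ _
    · rw [f2 i (by omega)]
      by_cases h4' : j < 4
      · rw [f0 j h4']
        exact (h.ne j (by omega) (i - 8) (by omega) true).symm
      by_cases h8' : j < 8
      · rw [f1 j (by omega) h8']
        by_cases h5 : i - 8 = j - 4
        · rw [h5]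
          exact h.lt.ft (by omega) true
        · exact h.lt.ne (by omega) (by omega) h5 _ _
      · rw [f2 j (by omega)]
        exact h.lt.ne (by omega) (by omega) (by omega) _ _
  have had : ∀ i < 12, ∀ j < i, (G.Adj (f i) (f j) ↔ rr al b1 b0 b2 i j = true) := by
    intro i hi j hj
    have e0 : ∀ a b : ℕ, (Nat.blt a b = true ↔ a < b) := fun a b => by rw [Nat.blt_eq]
    have e1 : ∀ a b : ℕ, (Nat.beq a b = true ↔ a = b) := fun a b => by rw [Nat.beq_eq]
    unfold rr
    by_cases h4 : i < 4
    · rw [(e0 i 4).2 h4, cond_true, f0 i h4, f0 j (by omega)]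
      exact iff_of_true (h.vv i (by omega) j (by omega) (by omega)) rfl
    rw [Bool.eq_false_iff.2 (fun h5 => h4 ((e0 i 4).1 h5)), cond_false]
    by_cases h8 : i < 8
    · rw [(e0 i 8).2 h8, cond_true, f1 i (by omega) h8]
      by_cases h4' : j < 4
      · rw [(e0 j 4).2 h4', cond_true, f0 j h4', SimpleGraph.adj_comm, h.f j (by omega) (i - 4) (by omega),
          Bool.or_eq_true, Bool.and_eq_true, e0, e0]
        constructor
        · rintro (h5 | ⟨h5, h6⟩)
          · exact Or.inl (by omega)
          · exact Or.inr ⟨by omega, h6⟩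
        · rintro (h5 | ⟨h5, h6⟩)
          · exact Or.inl (by omega)
          · exact Or.inr ⟨by omega, h6⟩
      · rw [Bool.eq_false_iff.2 (fun h5 => h4' ((e0 j 4).1 h5)), cond_false, f1 j (by omega) (by omega)]
        exact iff_of_false (h.lt.nadj (by omega) (by omega) (by omega) _ _) Bool.false_ne_true
    rw [Bool.eq_false_iff.2 (fun h5 => h8 ((e0 i 8).1 h5)), cond_false, f2 i (by omega)]
    by_cases h4' : j < 4
    · rw [(e0 j 4).2 h4', cond_true, f0 j h4', SimpleGraph.adj_comm, h.t j (by omega) (i - 8) (by omega),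
        Bool.or_eq_true, Bool.or_eq_true, Bool.and_eq_true, Bool.and_eq_true, Bool.and_eq_true, e0, e0, e1]
      constructor
      · rintro (⟨h5, h6⟩ | ⟨h5, h6⟩ | ⟨h5, h6⟩)
        · exact Or.inl (Or.inl ⟨by omega, h6⟩)
        · exact Or.inl (Or.inr ⟨by omega, h6⟩)
        · exact Or.inr ⟨by omega, h6⟩
      · rintro ((⟨h5, h6⟩ | ⟨h5, h6⟩) | ⟨h5, h6⟩)
        · exact Or.inl ⟨by omega, h6⟩
        · exact Or.inr (Or.inl ⟨by omega, h6⟩)
        · exact Or.inr (Or.inr ⟨by omega, h6⟩)
    rw [Bool.eq_false_iff.2 (fun h5 => h4' ((e0 j 4).1 h5)), cond_false]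
    by_cases h8' : j < 8
    · rw [(e0 j 8).2 h8', cond_true, f1 j (by omega) h8', h.lt _ (by omega) _ (by omega), e1]
      constructor
      · rintro ⟨h5, -⟩
        omega
      · intro h5
        exact ⟨by omega, by decide⟩
    · rw [Bool.eq_false_iff.2 (fun h5 => h8' ((e0 j 8).1 h5)), cond_false, f2 j (by omega)]
      exact iff_of_false (h.lt.nadj (by omega) (by omega) (by omega) _ _) Bool.false_ne_true
  have hS : BU.SP G Set.univ 12 (fun i => {f i}) (rr al b1 b0 b2) :=
    ⟨fun _ _ => Set.subset_univ _, fun _ _ => Conn.singleton G _,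
      fun i hi j hj => Set.disjoint_singleton.2 (hne i hi j hj),
      fun i hi j hj => BU.tch_single.trans (had i hi j hj)⟩
  exact hK (sp_k401 (HC.chkG_sp hS h1))

end Pool.Agent.MPd439b2.NK
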