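import Pool.Agent.Lib.MP_d439b2_co.NK.Gre
import Pool.Agent.Lib.MP_d439b2_co.NK.Cod
import Pool.Agent.Lib.MP_d439b2_co.NK.Tab
import Pool.Agent.Lib.MP_d439b2_co.NK.Chn
import Pool.Agent.Lib.MP_d439b2_co.NK.Exc
import Pool.Agent.Lib.MP_d439b2_co.NK.Six
import Pool.Agent.Lib.MP_d439b2_co.NK.PtA
import Pool.Agent.Lib.MP_d439b2_co.NK.NK
import Pool.Agent.Lib.MP_d439b2_co.NK.Ad
import Pool.Agent.Lib.MP_d439b2_co.CH.Final
import Pool.Agent.Lib.MP_d439b2_co.RG.Final
import Pool.Agent.Lib.MP_d439b2_co.A0.Final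
import Pool.Agent.Lib.MP_d439b2_co.X2.Ram3

/-!
# MP_d439b2_co, NK: no large induced matchings in linked graphs without `K4:0,1` and `co(P_3 + t P_2)`

Part A (`NK/Spec.lean`), part B = chains (`CH/Final.lean`), REG (`RG/Final.lean`).
-/

set_option autoImplicit false

namespace Pool.Agent.MPd439b2.NK

open Pool.Agent.MPd439b2
open Pool.Agent.MPd439b2.Rep
open Pool.Agent.MPd439b2.F9
open Pool.Agent.MPd439b2.A0
open Pool.Agent.MPd439b2.CH

/-- part A without hypotheses -/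
theorem ptA : ∀ t m m' : ℕ, ∃ N : ℕ, ∀ (V : Type) [Finite V] (G : SimpleGraph V)
    (e : Bool → ℕ → V), ¬ IMS K401 G Set.univ → ¬ IMS (JP t) G Set.univ → Lt G N e →
      (∃ (v : ℕ → V) (e' : Bool → ℕ → V), Ch G m v e') ∨
      ∃ (e' : Bool → ℕ → V) (W : Set V), W.ncard ≤ 6 ∧ Reg G m' e' W :=
  nPtA W.ramC (X2.ram3 W.ramC) nGre nExc nSix (nChn W.ramC A0.paF A0.aPB nCod nTab)

/-- **Theorem NK.** Linked graphs without the induced minors `K4:0,1` and `co(P_3 + t P_2)` have no large induced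
matchings. -/
theorem killN (t : ℕ) : Rep.Kill K401 (JP t) false false false :=
  nNK oMp ptA (reg_of RG.regF) t

private theorem kf1' : KF 4 2 ![{0}, {1}] = KA 4 2 ![{0}, {1}] := by
  unfold KF
  congr 1
  funext q
  fin_cases q <;> simp

/-- the same for the notation of `F9` -/
theorem killNF (t : ℕ) : Rep.Kill (F9.KF 4 2 ![{0}, {1}]) (JS ![0, 1, 1] t) false false false := by
  rw [kf1']
  exact killN t

/-- the type `nK_2` for `J4 = co(P_3 + 4 P_2)` -/
theorem killN4 : Rep.Kill (F9.KF 4 2 ![{0}, {1}]) Rep.J4 false false false := killNF 4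

end Pool.Agent.MPd439b2.NK
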