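import Pool.Agent.Lib.MP_d439b2_co.CH.Base
import Pool.Agent.Lib.MP_d439b2_co.GT.SpecG
import Pool.Agent.Lib.MP_d439b2_co.Rep.RowX2

/-!
# MP_d439b2_co, NK: large induced matchings in linked graphs (`K4:0,1`), definitions and basic lemmas

`Lt G n e`: an induced matching of `n` pairs `e false i, e true i`, the LETTERS (`i < n`); `Pr e i`: the letter as
a set; `Tc G e u i`: `u` touches the letter `i`.  `Lw G n e u`: `u` touches at most one letter; `Fl G n e u`:
`u` is complete to all letters.  `Reg G n e W`: every vertex outside `W` is `Lw` or `Fl`.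
`Wd G n e U r N`: `U` contains the letters, every vertex of `U` touches at most one letter, and no set of at most `r`
vertices separates in `G[U]` two sets with more than `N` letters each.
`Frm Γ S k ρ γ`: a FRAME: `k` disjoint connected rows `ρ i`, `k` disjoint connected columns `γ j`.
-/

set_option autoImplicit false

namespace Pool.Agent.MPd439b2.NK

open Pool.Agent.MPd439b2
open Pool.Agent.MPd439b2.Rep
open Pool.Agent.MPd439b2.F9
open Pool.Agent.MPd439b2.A0
open Pool.Agent.MPd439b2.CH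

variable {V : Type}

/-- an induced matching of `n` pairs `e false i, e true i` (the letters) -/
def Lt (G : SimpleGraph V) (n : ℕ) (e : Bool → ℕ → V) : Prop :=
  ∀ i < n, ∀ j < n, ∀ s t : Bool, (G.Adj (e s i) (e t j) ↔ i = j ∧ s ≠ t)

/-- the letter `i` as a set -/
def Pr (e : Bool → ℕ → V) (i : ℕ) : Set V := {x | ∃ s, x = e s i}

/-- `u` touches the letter `i` -/
def Tc (G : SimpleGraph V) (e : Bool → ℕ → V) (u : V) (i : ℕ) : Prop := ∃ s, G.Adj u (e s i)

/-- `u` touches at most one of the letters -/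
def Lw (G : SimpleGraph V) (n : ℕ) (e : Bool → ℕ → V) (u : V) : Prop :=
  ∀ i < n, ∀ j < n, Tc G e u i → Tc G e u j → i = j

/-- `u` is complete to all letters -/
def Fl (G : SimpleGraph V) (n : ℕ) (e : Bool → ℕ → V) (u : V) : Prop :=
  ∀ i < n, ∀ s, G.Adj u (e s i)

/-- every vertex outside `W` touches at most one letter or is complete to all letters -/
structure Reg (G : SimpleGraph V) (n : ℕ) (e : Bool → ℕ → V) (W : Set V) : Prop where
  lt : Lt G n e
  out : ∀ i < n, ∀ s, e s i ∉ W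
  reg : ∀ u, u ∉ W → Lw G n e u ∨ Fl G n e u

/-- a clique `v` and letters with constant codes: `v i` misses `e false i`, sees `e false j` for `j > i`, and sees
`e false j` for `j < i` iff `α`; it sees `e true j` iff `β₁` (`j > i`), `β₀` (`j = i`), `β₂` (`j < i`) -/
structure CP (G : SimpleGraph V) (m : ℕ) (v : ℕ → V) (e : Bool → ℕ → V) (α β₁ β₀ β₂ : Bool) :
    Prop where
  lt : Lt G m e
  ne : ∀ i < m, ∀ j < m, ∀ s, v i ≠ e s j
  vv : ∀ i < m, ∀ j < m, i ≠ j → G.Adj (v i) (v j)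
  f : ∀ i < m, ∀ j < m, (G.Adj (v i) (e false j) ↔ i < j ∨ (j < i ∧ α = true))
  t : ∀ i < m, ∀ j < m, (G.Adj (v i) (e true j) ↔
    (i < j ∧ β₁ = true) ∨ (i = j ∧ β₀ = true) ∨ (j < i ∧ β₂ = true))

/-! ### basic lemmas -/

namespace Lt

variable {G : SimpleGraph V} {n : ℕ} {e : Bool → ℕ → V}

theorem mono (h : Lt G n e) {m : ℕ} (hm : m ≤ n) : Lt G m e :=
  fun i hi j hj => h i (hi.trans_le hm) j (hj.trans_le hm)

theorem comp (h : Lt G n e) {m : ℕ} (σ : ℕ → ℕ) (h1 : ∀ i < m, σ i < n)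
    (h2 : ∀ i < m, ∀ j < m, σ i = σ j → i = j) : Lt G m (fun s i => e s (σ i)) := by
  intro i hi j hj s t
  show G.Adj (e s (σ i)) (e t (σ j)) ↔ _
  rw [h _ (h1 i hi) _ (h1 j hj)]
  exact ⟨fun h3 => ⟨h2 i hi j hj h3.1, h3.2⟩, fun h3 => ⟨by rw [h3.1], h3.2⟩⟩

/-- exchange of the two sides -/
theorem flip (h : Lt G n e) : Lt G n (fun s i => e (!s) i) := by
  intro i hi j hj s t
  show G.Adj (e (!s) i) (e (!t) j) ↔ _
  rw [h i hi j hj]
  constructor
  · rintro ⟨h1, h2⟩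
    exact ⟨h1, fun h3 => h2 (by rw [h3])⟩
  · rintro ⟨h1, h2⟩
    refine ⟨h1, fun h3 => h2 ?_⟩
    cases s <;> cases t <;> simp_all

theorem adj (h : Lt G n e) {i : ℕ} (hi : i < n) (s : Bool) : G.Adj (e s i) (e (!s) i) :=
  (h i hi i hi s (!s)).2 ⟨rfl, by cases s <;> decide⟩

theorem nadj (h : Lt G n e) {i j : ℕ} (hi : i < n) (hj : j < n) (hij : i ≠ j) (s t : Bool) :
    ¬ G.Adj (e s i) (e t j) := fun h1 => hij ((h i hi j hj s t).1 h1).1

theorem ne (h : Lt G n e) {i j : ℕ} (hi : i < n) (hj : j < n) (hij : i ≠ j) (s t : Bool) :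
    e s i ≠ e t j := by
  intro h1
  have h2 := h.adj hi s
  rw [h1] at h2
  exact h.nadj hj hi hij.symm _ _ h2

theorem ft (h : Lt G n e) {i : ℕ} (hi : i < n) (s : Bool) : e s i ≠ e (!s) i := (h.adj hi s).ne

theorem conn (h : Lt G n e) {i : ℕ} (hi : i < n) : Conn G (Pr e i) := by
  have h1 : Pr e i = {e false i, e true i} := by
    ext x
    constructor
    · rintro ⟨s, rfl⟩
      cases s
      · exact Or.inl rfl
      · exact Or.inr rfl
    · rintro (rfl | rfl)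
      · exact ⟨false, rfl⟩
      · exact ⟨true, rfl⟩
  rw [h1]
  exact Conn.pair (h.adj hi false)

theorem dis (h : Lt G n e) {i j : ℕ} (hi : i < n) (hj : j < n) (hij : i ≠ j) :
    Disjoint (Pr e i) (Pr e j) := by
  rw [Set.disjoint_left]
  rintro x ⟨s, rfl⟩ ⟨t, h1⟩
  exact h.ne hi hj hij s t h1

theorem ntch (h : Lt G n e) {i j : ℕ} (hi : i < n) (hj : j < n) (hij : i ≠ j) :
    ¬ Tch G (Pr e i) (Pr e j) := by
  rintro ⟨x, ⟨s, rfl⟩, y, ⟨t, rfl⟩, h1⟩
  exact h.nadj hi hj hij s t h1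

/-- a vertex of a letter touches exactly this letter -/
theorem tc (h : Lt G n e) {i j : ℕ} (hi : i < n) (hj : j < n) (s : Bool) :
    Tc G e (e s i) j ↔ i = j := by
  constructor
  · rintro ⟨t, h1⟩
    exact ((h i hi j hj s t).1 h1).1
  · rintro rfl
    exact ⟨!s, h.adj hi s⟩

theorem lw (h : Lt G n e) {i : ℕ} (hi : i < n) (s : Bool) : Lw G n e (e s i) :=
  fun _ hj _ hk h1 h2 => ((h.tc hi hj s).1 h1).symm.trans ((h.tc hi hk s).1 h2)

end Lt

theorem mem_Pr {e : Bool → ℕ → V} (s : Bool) (i : ℕ) : e s i ∈ Pr e i := ⟨s, rfl⟩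

/-- touching a letter -/
theorem tch_Pr {G : SimpleGraph V} {e : Bool → ℕ → V} {Y : Set V} {i : ℕ} :
    Tch G Y (Pr e i) ↔ ∃ u ∈ Y, Tc G e u i := by
  constructor
  · rintro ⟨u, hu, x, ⟨s, rfl⟩, h⟩
    exact ⟨u, hu, s, h⟩
  · rintro ⟨u, hu, s, h⟩
    exact ⟨u, hu, e s i, ⟨s, rfl⟩, h⟩

theorem lt_of_tp {G : SimpleGraph V} {n : ℕ} {a b : ℕ → V} (h : TP G n false false false a b) :
    Lt G n (fun s i => if s then b i else a i) := by
  have haa : ∀ i < n, ∀ j < n, ¬ G.Adj (a i) (a j) := by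
    intro i hi j hj h1
    by_cases hij : i = j
    · subst hij
      exact G.irrefl h1
    · exact Bool.false_ne_true ((h.aa i hi j hj hij).1 h1)
  have hbb : ∀ i < n, ∀ j < n, ¬ G.Adj (b i) (b j) := by
    intro i hi j hj h1
    by_cases hij : i = j
    · subst hij
      exact G.irrefl h1
    · exact Bool.false_ne_true ((h.bb i hi j hj hij).1 h1)
  intro i hi j hj s t
  cases s <;> cases t
  · exact iff_of_false (haa i hi j hj) fun h1 => h1.2 rfl
  · show G.Adj (a i) (b j) ↔ _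
    rw [h.ab i hi j hj]
    simp
  · show G.Adj (b i) (a j) ↔ _
    rw [SimpleGraph.adj_comm, h.ab j hj i hi]
    simp [eq_comm]
  · exact iff_of_false (hbb i hi j hj) fun h1 => h1.2 rfl

/-- a chain from letters -/
theorem ch_of {G : SimpleGraph V} {n : ℕ} {v : ℕ → V} {e : Bool → ℕ → V} (h : Lt G n e)
    (vv : ∀ i < n, ∀ j < n, i ≠ j → G.Adj (v i) (v j))
    (ve : ∀ i < n, ∀ j < n, ∀ s : Bool, (G.Adj (v i) (e s j) ↔ i < j)) : Ch G n v e :=
  ⟨vv, h, ve⟩

/-- a vertex which is complete to at least two letters is not in a letter -/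
theorem Lt.ne_of {G : SimpleGraph V} {n : ℕ} {e : Bool → ℕ → V} (h : Lt G n e) {u : V} {i j k : ℕ}
    (hi : i < n) (hj : j < n) (hk : k < n) (hij : i ≠ j) (h1 : Tc G e u i) (h2 : Tc G e u j)
    (s : Bool) : u ≠ e s k := by
  rintro rfl
  exact hij (h.lw hk s i hi j hj h1 h2)

section ins

variable {G : SimpleGraph V} {U W : Finset V}

theorem ins_mem {x y : V} (h : (GT.ins G U).Adj x y) : x ∈ U ∧ y ∈ U := h.2

theorem conn_ins {A : Set V} (h : Conn (GT.ins G U) A) : Conn G A :=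
  h.mono_graph fun _ _ _ _ h1 => h1.1

theorem conn_ins_of {A : Set V} (h : Conn G A) (hA : A ⊆ W) : Conn (GT.ins G W) A :=
  h.mono_graph fun _ hu _ hv h1 => ⟨h1, hA hu, hA hv⟩

theorem tch_ins {A B : Set V} (h : Tch (GT.ins G U) A B) : Tch G A B := by
  obtain ⟨a, ha, b, hb, h1⟩ := h
  exact ⟨a, ha, b, hb, h1.1⟩

theorem tch_ins_of {A B : Set V} (h : Tch G A B) (hA : A ⊆ W) (hB : B ⊆ W) :
    Tch (GT.ins G W) A B := by
  obtain ⟨a, ha, b, hb, h1⟩ := h
  exact ⟨a, ha, b, hb, h1, hA ha, hB hb⟩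

/-- a connected set of `ins G U` which touches another set is contained in `U` -/
theorem sub_of_tch {A B : Set V} (hA : Conn (GT.ins G U) A) (h : Tch (GT.ins G U) A B) :
    A ⊆ U := by
  obtain ⟨a, ha, b, _, h1⟩ := h
  by_contra hcon
  obtain ⟨x, hx, hxU⟩ := Set.not_subset.1 hcon
  have hne : ({x} : Set V) ≠ A := by
    intro h2
    rw [← h2, Set.mem_singleton_iff] at ha
    subst ha
    exact hxU h1.2.1
  obtain ⟨y, hy, z, _, hyz⟩ := hA.2 {x} (Set.singleton_subset_iff.2 hx) ⟨x, rfl⟩ hne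
  rw [Set.mem_singleton_iff] at hy
  subst hy
  exact hxU hyz.2.1

/-- a connected set which avoids `X` and is not contained in the closed side is disjoint from it -/
theorem out_of_cut [DecidableEq V] {Γ : SimpleGraph V} {L X D : Finset V}
    (far : ∀ u, u ∈ L → ∀ v, Γ.Adj u v → v ∈ L ∪ X) (hD : Conn Γ (D : Set V))
    (hX : Disjoint X D) {y : V} (hy : y ∈ D) (hyL : y ∉ L) : Disjoint D L := by
  rw [Finset.disjoint_left]
  intro z hz hzL
  obtain ⟨a, ha, b, hb, hab⟩ := hD.2 {x | x ∈ D ∧ x ∈ L} (fun x hx => hx.1) ⟨z, hz, hzL⟩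
    (fun h1 => hyL (by
      have h2 : y ∈ ({x | x ∈ D ∧ x ∈ L} : Set V) := by
        rw [h1]
        exact hy
      exact h2.2))
  rcases Finset.mem_union.1 (far a ha.2 b hab) with h1 | h1
  · exact hb.2 ⟨hb.1, h1⟩
  · exact Finset.disjoint_left.1 hX h1 hb.1

end ins

/-! ### the world and the frame -/

section fin

variable [Fintype V] [DecidableEq V]

/-- the first vertices of the letters -/
def Lf (n : ℕ) (e : Bool → ℕ → V) : Finset V := (Finset.range n).image (e false)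

/-- **The world**: see the head of the file. -/
structure Wd (G : SimpleGraph V) (n : ℕ) (e : Bool → ℕ → V) (U : Finset V) (r N : ℕ) : Prop where
  lt : Lt G n e
  mem : ∀ i < n, ∀ s, e s i ∈ U
  lw : ∀ u ∈ U, Lw G n e u
  sep : ∀ P Z R : Finset V, P ∪ Z ∪ R = Finset.univ → Disjoint P Z → Disjoint P R → Disjoint Z R →
    (∀ u, u ∈ P → ∀ v, v ∈ R → ¬ (GT.ins G U).Adj u v) → Z.card ≤ r →
      (Lf n e ∩ P).card ≤ N ∨ (Lf n e ∩ R).card ≤ N

/-- **Frames.**  `nb`: no vertex of a row or column is isolated in `Γ`; `deep`: for every set `Z` with less than `k / 2`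
vertices a connected set which contains more than half of `S`, avoids `Z` and contains all rows which avoid `Z`;
`k4`: a `K_4` model inside many rows and columns, for every vertex `c` not in `b i` the set `b i` meets one of these rows
or columns which avoids `c`. -/
structure Frm (Γ : SimpleGraph V) (S : Finset V) (k : ℕ) (ρ γ : Fin k → Finset V) : Prop where
  rc : ∀ i, Conn Γ (ρ i : Set V)
  cc : ∀ j, Conn Γ (γ j : Set V)
  rd : ∀ i j, i ≠ j → Disjoint (ρ i) (ρ j)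
  cd : ∀ i j, i ≠ j → Disjoint (γ i) (γ j)
  rg : ∀ i j, Conn Γ ((ρ i ∪ γ j : Finset V) : Set V)
  nb : ∀ i, (∀ x ∈ ρ i, ∃ y, Γ.Adj x y) ∧ ∀ x ∈ γ i, ∃ y, Γ.Adj x y
  deep : ∀ Z : Finset V, 2 * Z.card < k → ∃ D : Finset V, Conn Γ (D : Set V) ∧ GT.Big S D ∧
    Disjoint Z D ∧ ∀ i, Disjoint (ρ i) Z → ρ i ⊆ D
  k4 : ∀ I J : Finset (Fin k), k ≤ I.card + 64 → k ≤ J.card + 64 → ∃ b : Fin 4 → Finset V,
    (∀ i, Conn Γ (b i : Set V)) ∧ (∀ i j, i ≠ j → Disjoint (b i) (b j)) ∧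
    (∀ i j, i ≠ j → Tch Γ (b i : Set V) (b j : Set V)) ∧
    (∀ i, ∀ x ∈ b i, (∃ l ∈ I, x ∈ ρ l) ∨ ∃ l ∈ J, x ∈ γ l) ∧
    ∀ i, ∀ c, c ∉ b i → (∃ l ∈ I, c ∉ ρ l ∧ ¬ Disjoint (b i) (ρ l)) ∨
      ∃ l ∈ J, c ∉ γ l ∧ ¬ Disjoint (b i) (γ l)

end fin

end Pool.Agent.MPd439b2.NK
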