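import Pool.Agent.Lib.MP_d439b2_co.NK.Spec

/-!
# MP_d439b2_co, NK/Gre: the greedy algorithm
-/

set_option autoImplicit false

namespace Pool.Agent.MPd439b2.NK

theorem nGre : S_Gre := by
  classical
  intro f K
  induction K with
  | zero =>
    refine ⟨0, fun V P u₀ S _ => Or.inl ⟨fun _ => u₀, fun _ => 0, fun i hi => absurd hi (by omega),
      fun i j _ hj => absurd hj (by omega)⟩⟩
  | succ K ih =>
    obtain ⟨N, hN⟩ := ih
    refine ⟨f N, fun V P u₀ S hS => ?_⟩
    by_cases h : ∀ u, (∀ i ∈ S, P u i) ∨ {i | i ∈ S ∧ P u i}.ncard < N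
    · exact Or.inr ⟨S, subset_rfl, N, hS, h⟩
    · push Not at h
      obtain ⟨u, ⟨s₀, hs₀, hs₀'⟩, hu⟩ := h
      have hcard : N ≤ (S.filter fun i => P u i).card := by
        have h1 : {i | i ∈ S ∧ P u i} = ((S.filter fun i => P u i : Finset ℕ) : Set ℕ) := by
          ext i
          simp
        rw [h1, Set.ncard_coe_finset] at hu
        exact hu
      rcases hN V P u₀ (S.filter fun i => P u i) hcard with ⟨v, s, h1, h2⟩ | ⟨S', hS', L, h1, h2⟩
      · left
        refine ⟨fun i => if i = 0 then u else v (i - 1), fun i => if i = 0 then s₀ else s (i - 1),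
          fun i hi => ?_, fun i j hij hj => ?_⟩
        · by_cases h3 : i = 0
          · simp only [if_pos h3]
            exact ⟨hs₀, hs₀'⟩
          · simp only [if_neg h3]
            obtain ⟨h4, h5⟩ := h1 (i - 1) (by omega)
            exact ⟨(Finset.mem_filter.1 h4).1, h5⟩
        · have hj0 : j ≠ 0 := by omega
          by_cases h3 : i = 0
          · simp only [if_pos h3, if_neg hj0]
            exact (Finset.mem_filter.1 (h1 (j - 1) (by omega)).1).2
          · simp only [if_neg h3, if_neg hj0]
            exact h2 (i - 1) (j - 1) (by omega) (by omega)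
      · exact Or.inr ⟨S', hS'.trans (Finset.filter_subset _ _), L, h1, h2⟩

end Pool.Agent.MPd439b2.NK
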