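import Pool.Agent.Lib.MP_d439b2_co.NK.Base
import Pool.Agent.Lib.MP_d439b2_co.CH.Spec
import Pool.Agent.Lib.MP_d439b2_co.X2.SpecA

/-!
# MP_d439b2_co, NK, part A: a large induced matching gives a chain or a regular one (`K4:0,1`)

**Theorem (part A).** For all `t, m, m'` there is `N`: a finite graph without the induced minors `K4:0,1` and
`J_t = co(P_3 + t P_2)` with `N` letters (`Lt G N e`) contains a chain of length `m` (`CH.Ch G m v e'`), or `m'` letters
`e'` and a set `W` with at most 6 vertices such that every vertex outside `W` is complete to all these letters or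
touches at most one of them (`Reg G m' e' W`).  Part B = `CH/`, REG = `NK/SpecR.lean`.

Every `S_...` is a statement to be proved in its own file; the docstring contains the complete proof; the used
statements are hypotheses of the theorem, in the order given in `(Uses ...)`.  The theorem for `S_X` is
called `nX` and is in the file `NK/X.lean`.  `x ~ y` means `G.Adj x y`; `a i = e false i`, `w i = e true i`.  Basic
lemmas: `NK/Base.lean`.  `[a, a' | b, b' | c | d ; p, r]` means `CH.eng` with these vertices, `[a | b, b' | ...]` means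
`a' = a`.  `M1` is `A0.aM1`.
-/

set_option autoImplicit false

namespace Pool.Agent.MPd439b2.NK

open Pool.Agent.MPd439b2
open Pool.Agent.MPd439b2.Rep
open Pool.Agent.MPd439b2.F9
open Pool.Agent.MPd439b2.A0
open Pool.Agent.MPd439b2.CH

/-- **Gre.** The greedy algorithm.

Proof. Induction on `K`; `K = 0`: `N = 0`, the first alternative with `v i = u₀`, `s i = 0`.  Step: let `N` be the number
for `K`; the number for `K + 1` is `f N`.  Let `f N ≤ |S|`.  If every `u` satisfies `∀ i ∈ S, P u i` or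
`{i | i ∈ S ∧ P u i}.ncard < N`: the second alternative with `S' = S`, `L = N`.  Otherwise there is `u` with `¬ P u s₀` for
some `s₀ ∈ S` and `N ≤ |S₁|`, `S₁ = {i ∈ S | P u i}` (a `Finset`, classical filter).  Use the induction hypothesis for
`S₁`.  If it gives `v, s` (length `K`) take `v' 0 = u`, `v' (i + 1) = v i`, `s' 0 = s₀`, `s' (i + 1) = s i`: `P u (s i)` because
`s i ∈ S₁`.  If it gives `S' ⊆ S₁` we are done as well. -/
def S_Gre : Prop := ∀ (f : ℕ → ℕ) (K : ℕ), ∃ N : ℕ, ∀ (V : Type) (P : V → ℕ → Prop) (_ : V)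
  (S : Finset ℕ), N ≤ S.card →
    (∃ (v : ℕ → V) (s : ℕ → ℕ), (∀ i < K, s i ∈ S ∧ ¬ P (v i) (s i)) ∧
      ∀ i j, i < j → j < K → P (v i) (s j)) ∨
    ∃ S' ⊆ S, ∃ L : ℕ, f L ≤ S'.card ∧ ∀ u, (∀ i ∈ S', P u i) ∨ {i | i ∈ S' ∧ P u i}.ncard < L

/-- **Cod.** Constant codes.  (Uses `W.S_RamC`, `A0.S_PA`, `A0.S_PB`.)

Proof. `m' = max (m + 3) (2 t + 11)`; `K` = the number of `W.S_RamC` for `κ = Bool × Bool × Bool × Bool × Bool` and `m'`;
for `i, j` the colour is (`v i ~ v j`, `v j ~ a (s i)`, `v i ~ w (s j)`, `v i ~ w (s i)`, `v j ~ w (s i)`) (`decide`).  We get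
`σ` (increasing on `i < m'`, values `< K`) and a constant colour `(ε, α, β₁, β₀, β₂)`.  `s (σ i) ≠ s (σ j)` for `i < j < m'`:
`v (σ i)` sees `a (s (σ j))` and not `a (s (σ i))`.  Put `v' i = v (σ i)`, `e' r i = e r (s (σ i))`; `Lt.comp`.  So for
`i < j < m'`: `v' i ~ a' j`, `v' i ≁ a' i`, `v' j ~ a' i` iff `α`.  CASE `ε = false`: the `v' i`, `i < m'`, are pairwise
non-adjacent (also `v' i ≁ v' i`), the `a' i` as well.  `α = false`: `v' j ~ a' i` iff `j < i`: `A0.S_PA` with `x = a'`, `y = v'`.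
`α = true`: `v' i ~ a' j` iff `i ≠ j`: `A0.S_PB` with `a = v'`, `w = a'` gives `IMS (JP t) G univ`.  Both are excluded.
CASE `ε = true`: `CP G m v' e' α β₁ β₀ β₂`: for `i < m` the colour of the pair `(i, i + 1)` gives `v' i ~ w' i` iff `β₀`
(`i + 1 < m'`).  `ne`: for `i < m` the vertex `v' i` sees `a' (m + 1)` and `a' (m + 2)`: `Lt.ne_of`. -/
def S_Cod : Prop := W.S_RamC → A0.S_PA → A0.S_PB → ∀ t m : ℕ, ∃ K : ℕ, ∀ (V : Type)
  (G : SimpleGraph V) (n : ℕ) (e : Bool → ℕ → V), Lt G n e → ¬ IMS K401 G Set.univ →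
    ¬ IMS (JP t) G Set.univ → ∀ (v : ℕ → V) (s : ℕ → ℕ),
      (∀ i < K, s i < n ∧ ¬ G.Adj (v i) (e false (s i))) →
      (∀ i j, i < j → j < K → G.Adj (v i) (e false (s j))) →
        ∃ (v' : ℕ → V) (e' : Bool → ℕ → V) (α β₁ β₀ β₂ : Bool), CP G m v' e' α β₁ β₀ β₂

/-- **Tab.** The table of the codes.

Proof. Models (`eng`; indices `0, .., 3`; `V i ≠ V j`: adjacent; `e r i ≠ e s j`: `Lt.ne`, `Lt.ft`; `v i ≠ e s j`: `CP.ne`).  Let
`(β₁, β₀, β₂)` be the code of `w`.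
`α = false`: `000`, `001`: `[v 0 | a 3 | v 1 | v 2 ; a 1, w 3]`.  `010`: `[v 0, w 0 | v 1 | v 2 | a 3 ; a 0, w 1]`.
`101`: `[v 0 | v 1 | a 2 | w 2 ; a 1, w 0]`.  `011`, `111`: `[w 0 | v 0 | v 1 | v 2 ; a 0, a 1]`.  `100`, `110`: this is the claim.
`α = true`: `000`: `[a 0, v 1 | a 1, v 0 | v 2 | v 3 ; w 0, w 1]`.  `100`: `[v 1 | v 0 | a 2 | w 2 ; a 0, w 1]`.
`010`: `[v 0 | v 2 | v 1 | a 3 ; w 0, w 2]`.  `110`: `[v 1 | v 0 | a 2 | w 2 ; a 0, a 1]`.
`001`, `011`, `111`: `[v 2 | v 1 | a 0 | w 0 ; a 1, a 2]`.  `101`: `[v 2 | v 0 | a 1 | w 1 ; w 0, w 2]`. -/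
def S_Tab : Prop := ∀ (V : Type) (G : SimpleGraph V) (m : ℕ) (v : ℕ → V) (e : Bool → ℕ → V)
  (α β₁ β₀ β₂ : Bool), 4 ≤ m → CP G m v e α β₁ β₀ β₂ → ¬ IMS K401 G Set.univ →
    α = false ∧ β₁ = true ∧ β₂ = false

/-- **Chn.** From the greedy sequence to a chain.  (Uses `W.S_RamC`, `A0.S_PA`, `A0.S_PB`, `S_Cod`, `S_Tab`.)

Proof. `K` from Cod for `t` and `2 m + 4`.  If `r = true` replace `e` by `fun s i => e (!s) i` (`Lt.flip`), so let `r = false`.
Cod and Tab give `CP G (2 m + 4) v' e' false true β₀ false`.  Take `v'' i = v' (2 i + 1)`, `e'' s i = e' s (2 i)` (`i < m`):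
`v'' i ~ a'' j` iff `2 i + 1 < 2 j` iff `i < j`; `v'' i ~ w'' j` iff `2 i + 1 < 2 j` (`2 i + 1 = 2 j` is impossible).  `ch_of`. -/
def S_Chn : Prop := W.S_RamC → A0.S_PA → A0.S_PB → S_Cod → S_Tab → ∀ t m : ℕ, ∃ K : ℕ,
  ∀ (V : Type) (G : SimpleGraph V) (n : ℕ) (e : Bool → ℕ → V), Lt G n e →
    ¬ IMS K401 G Set.univ → ¬ IMS (JP t) G Set.univ → ∀ (r : Bool) (v : ℕ → V) (s : ℕ → ℕ),
      (∀ i < K, s i < n ∧ ¬ G.Adj (v i) (e r (s i))) →
      (∀ i j, i < j → j < K → G.Adj (v i) (e r (s j))) →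
        ∃ (v' : ℕ → V) (e' : Bool → ℕ → V), Ch G m v' e'

/-- **Exc.** At most three vertices are complete to one side of the letters and see few vertices of the other side.

Proof. Suppose that there are four different such vertices `z 0, .., z 3`.  Together they see less than `4 L + 1` of the
`e (!r) i`, `i ∈ S`, so there are three different indices `i₀, i₁, i₂ ∈ S` with `z k ≁ e (!r) (i_l)` for all `k, l`.
M1 with `A = {z 0, e r i₀}`, `B = {z 1, e r i₁}`, `C = {z 2, e r i₂}`, `D = {z 3}`, `P = {e (!r) i₀}`, `Q = {e (!r) i₁}` (all `z k`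
see all `e r i`, `i ∈ S`; `z k` is not in a letter by `Lt.ne_of`). -/
def S_Exc : Prop := ∀ (V : Type) [Finite V] (G : SimpleGraph V) (n : ℕ) (e : Bool → ℕ → V)
  (S : Finset ℕ) (L : ℕ) (r : Bool), Lt G n e → (∀ i ∈ S, i < n) → 4 * L + 4 ≤ S.card →
    ¬ IMS K401 G Set.univ →
      {u | (∀ i ∈ S, G.Adj u (e r i)) ∧ {i | i ∈ S ∧ G.Adj u (e (!r) i)}.ncard < L}.ncard ≤ 3

/-- **Six.** Thinning out: vertices which touch few letters touch at most one of the new ones.  (Uses `W.S_RamC`,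
`X2.S_Ram3`.)

Proof. `m₃` = the number of `X2.S_Ram3` for `κ = Bool × Bool × Bool` and `L + 6`; `M` = the number of `W.S_RamC` for
`κ = Bool` and `max m m₃`.  Let `x 0 < x 1 < ..` (`M` of them) be elements of `S` (`Finset.orderEmbOfFin`, extended
arbitrarily).  `W.S_RamC` for the colour `decide (∃ u ∈ Q, Tc G e u (x i) ∧ Tc G e u (x j))`: `σ`.  If the colour is
`false`: `i ↦ x (σ i)`, `i < m`.  Let it be `true` and write `x` for `x ∘ σ`: for `i < j < m₃` choose `z i j ∈ Q` touching `x i` and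
`x j`.  `X2.S_Ram3` for the colour of `i < j < k`: (`Tc (z i j) (x k)`, `Tc (z i k) (x j)`, `Tc (z j k) (x i)`), `τ` of length
`q = L + 6`.  If the first component is `true` then `z (τ 0) (τ 1)` touches all `x (τ k)`, `1 < k < q`, more than `L` of
them: contradiction.  The second: `z (τ 0) (τ (q - 1))` touches all `x (τ j)`, `0 < j < q - 1`.  The third:
`z (τ (q - 2)) (τ (q - 1))` touches all `x (τ i)`, `i < q - 2`.  So all three are `false`: with `y k = x (τ k)`, `Z p q = z (τ p) (τ q)`,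
`p < q < 6`, the vertex `Z p q` touches `y p`, `y q` and no other `y k`, `k < 6`.  So the `Z p q` are different from each other and
are not in letters (`Lt.ne_of`).  M1 with `A = Pr (y 0) ∪ {Z 0 1, Z 0 2, Z 0 3, Z 0 4}`, `B = Pr (y 1) ∪ {Z 1 2, Z 1 3, Z 1 5}`,
`C = Pr (y 2) ∪ {Z 2 3}`, `D = Pr (y 3)`, `P = Pr (y 4)`, `Q = Pr (y 5)`.  (A set `Pr y ∪ {z, ..}` is connected if all `z` touch
`y`; `¬ Tch G A Q`: `tch_Pr`, `Lt.tc`.) -/
def S_Six : Prop := W.S_RamC → X2.S_Ram3 → ∀ m L : ℕ, ∃ M : ℕ, ∀ (V : Type)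
  (G : SimpleGraph V) (n : ℕ) (e : Bool → ℕ → V) (S : Finset ℕ) (Q : Set V), Lt G n e →
    (∀ i ∈ S, i < n) → M ≤ S.card → ¬ IMS K401 G Set.univ →
      (∀ u ∈ Q, {i | i ∈ S ∧ Tc G e u i}.ncard < L) → ∃ σ : ℕ → ℕ, (∀ i < m, σ i ∈ S) ∧
        (∀ i < m, ∀ j < m, σ i = σ j → i = j) ∧
        ∀ u ∈ Q, ∀ i < m, ∀ j < m, Tc G e u (σ i) → Tc G e u (σ j) → i = j

/-- **PtA.** Part A.  (Uses `W.S_RamC`, `X2.S_Ram3`, `S_Gre`, `S_Exc`, `S_Six`, and the chain statement: the last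
hypothesis is the conclusion of `S_Chn`.)

Proof. `K` from the chain statement for `t, m`.  For `L` let `M L` be the number of Six for `m', L`, `g L = max (M L) (4 L + 4)`.
For `x : ℕ` let `N₂ x` be the number of Gre for `f y = g (x + y)` and `K`; `N` = the number of Gre for `f = N₂` and `K`.
Gre for `P u i = (u ~ e false i)`, `S = range N` (there is a vertex, `e false 0`): the first alternative gives a chain
(`r = false`, `n = N`).  Otherwise `S₁`, `L₁`, `N₂ L₁ ≤ |S₁|`.  Gre for `P u i = (u ~ e true i)` and `S₁`: the first alternative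
gives a chain (`r = true`).  Otherwise `S₂ ⊆ S₁`, `L₂`, `g (L₁ + L₂) ≤ |S₂|`; put `L = L₁ + L₂`.  Every `u` sees all
`e false i`, `i ∈ S₂`, or less than `L₁ ≤ L` of them (subset of `S₁`), and all `e true i`, `i ∈ S₂`, or less than `L₂` of them.
`W = W₁ ∪ W₂`, `W₁` = the set of Exc for `S₂, L, r = false`, `W₂` for `r = true`: at most 6 vertices.
`Q = {u | {i ∈ S₂ | Tc G e u i}.ncard < L}`; Six for `S₂, Q, L`: `σ`.  `e' s i = e s (σ i)` (`Lt.comp`).  `out`: `e s (σ i)` does not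
see all `e r j`, `j ∈ S₂` (`S₂` has at least two elements).  `reg`: let `u ∉ W`.  If `u` sees all `e false i` and all `e true i`,
`i ∈ S₂`: `Fl`.  If it sees all `e false i` and less than `L₂` of the `e true i` it is in `W₁`, similarly `W₂`.  Otherwise
it sees less than `L₁` of the `e false i` and less than `L₂` of the `e true i`, `i ∈ S₂`: it is in `Q` (`ncard` of a union), so
`Lw`. -/
def S_PtA : Prop := W.S_RamC → X2.S_Ram3 → S_Gre → S_Exc → S_Six →
  (∀ t m : ℕ, ∃ K : ℕ,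
    ∀ (V : Type) (G : SimpleGraph V) (n : ℕ) (e : Bool → ℕ → V), Lt G n e →
      ¬ IMS K401 G Set.univ → ¬ IMS (JP t) G Set.univ → ∀ (r : Bool) (v : ℕ → V) (s : ℕ → ℕ),
        (∀ i < K, s i < n ∧ ¬ G.Adj (v i) (e r (s i))) →
        (∀ i j, i < j → j < K → G.Adj (v i) (e r (s j))) →
          ∃ (v' : ℕ → V) (e' : Bool → ℕ → V), Ch G m v' e') →
  ∀ t m m' : ℕ, ∃ N : ℕ, ∀ (V : Type) [Finite V] (G : SimpleGraph V) (e : Bool → ℕ → V),
    ¬ IMS K401 G Set.univ → ¬ IMS (JP t) G Set.univ → Lt G N e →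
      (∃ (v : ℕ → V) (e' : Bool → ℕ → V), Ch G m v e') ∨
      ∃ (e' : Bool → ℕ → V) (W : Set V), W.ncard ≤ 6 ∧ Reg G m' e' W

end Pool.Agent.MPd439b2.NK
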