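import Pool.Agent.Lib.MP_d439b2_co.NK.Spec

/-!
# MP_d439b2_co, NK, REG: a regular induced matching is impossible in a linked graph (`K4:0,1`)

**Theorem (REG).** For every `β` there are `c₀, n₀`: a finite graph without the induced minor `K4:0,1` and with
`Link β c₀ G` has no `n₀` letters `e` and set `W` with `W.ncard ≤ 6` and `Reg G n₀ e W`.

Plan: (1) `SA` .. `RW`: small separators of `G[U]` (`U` = the vertices which touch at most one letter) do not separate
many letters from many letters: `Wd`.  (2) `Hvn`: a haven in `G[U]`; `GT.SGK` (the grid theorem) gives a deep `K_t`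
model or grid model: `FrK`, `FrG`, `Frm`: a frame.  (3) `Lea`, `Ral`: five letters and 64 disjoint connected
sets which touch all five give `K4:0,1`.  (4) `Lam`: many letters which touch no good row and no good column.
(5) `Lnk`, `Tri`: disjoint paths from letters to good rows, three of them with no touches to the other letters.
(6) `K4S`, `K4R`, `Fin3`: a `K_4` model rooted at two of the three attachments.

Every `S_...` is a statement to be proved in its own file; the docstring contains the complete proof; the used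
statements are hypotheses of the theorem, in the order given in `(Uses ...)`.  The theorem for `S_X` is
called `nX` and is in the file `NK/X.lean`.  Basic lemmas: `NK/Base.lean`, `GT/Base.lean`, `Basic.lean`.  `M1` is `A0.aM1`.
`x ~ y` means `G.Adj x y`.
-/

set_option autoImplicit false

namespace Pool.Agent.MPd439b2.NK

open Pool.Agent.MPd439b2
open Pool.Agent.MPd439b2.Rep
open Pool.Agent.MPd439b2.F9
open Pool.Agent.MPd439b2.A0
open Pool.Agent.MPd439b2.CH

/-! ### (1) small separators -/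

/-- **SA.** Proof. Suppose `¬ G.Adj c' f`.  `c` and `c'` touch at most one letter each; let `s ≠ t` be two letters
(`< n`, `4 ≤ n`) which they do not touch.  M1 with `A = {f} ∪ Pr e s`, `B = {g}`, `C = {e false t}`, `D = {e true t}`, `P = {c}`,
`Q = {c'}`.  (`f`, `g` are not in letters by `Lt.ne_of`; `c`, `c'` are not in the letters `s`, `t`, as they do not touch them
(`Lt.tc`); `f ≠ g`, `f ≠ c` because of the adjacencies; `c ≠ c'`; `c' ≠ f`: `f` touches all letters, `c'` does not touch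
`s`.) -/
def S_SA : Prop := ∀ (V : Type) (G : SimpleGraph V) (n : ℕ) (e : Bool → ℕ → V), Lt G n e → 4 ≤ n →
  ¬ IMS K401 G Set.univ → ∀ f g c c' : V, Fl G n e f → Fl G n e g → Lw G n e c → Lw G n e c' →
    ¬ G.Adj c c' → G.Adj c f → ¬ G.Adj c g → G.Adj c' g → G.Adj c' f

/-- **SB.** Proof. Suppose `¬ G.Adj c' f`.  M1 with `A = {f}`, `B = insert g K`, `C = {e false t}`, `D = {e true t}`, `P = {c}`,
`Q = {c'}`.  (`A`, `B` touch: `f ~ e false s ∈ K`.  `B` touches `C`, `D` because of `g`; `B` is connected: `g ~ e false s`.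
`f`, `g` are not in `K`: they touch the letters `s ≠ t`, the elements of `K` are `Lw`; they are not in letters.
`c ∉ K`: `e false s ∈ K`, so if `c ∈ K` then (`Conn`, `{c}`; `K` has at least two elements) `c` is adjacent to an element of
`K`.  `c ≠ c'`: `c ~ f`, `¬ c' ~ f`.  `K` and `Pr e t` are disjoint by hypothesis; `c`, `c'` do not touch the letter `t`.) -/
def S_SB : Prop := ∀ (V : Type) (G : SimpleGraph V) (n : ℕ) (e : Bool → ℕ → V), Lt G n e →
  ¬ IMS K401 G Set.univ → ∀ (f g c c' : V) (s t : ℕ) (K : Set V), Fl G n e f → Fl G n e g →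
    s < n → t < n → s ≠ t → ¬ Tc G e c t → ¬ Tc G e c' t → Conn G K → Pr e s ⊆ K →
    (∀ x ∈ K, Lw G n e x) → Disjoint K (Pr e t) → c' ∉ K → (∃ x ∈ K, G.Adj c' x) →
    (∀ x ∈ K, ¬ G.Adj c x) → ¬ G.Adj c c' → G.Adj c f → ¬ G.Adj c g → ¬ G.Adj c' g → G.Adj c' f

/-- the part of `D` which is connected in `D` to a letter -/
def Hd {V : Type} (G : SimpleGraph V) (n : ℕ) (e : Bool → ℕ → V) (D : Set V) : Set V :=
  {x | ∃ K ⊆ D, Conn G K ∧ x ∈ K ∧ ∃ i < n, Pr e i ⊆ K}

/-- **SC.** Two sides of a small separator, one of them has a cut of small rank.  (Uses `S_SA`, `S_SB`.)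

Proof. `H = Hd G n e D`, `H' = Hd G n e D'`, `F = {f | f ∉ W ∧ Fl G n e f}`.  CLAIM: if `c ∈ H` and `c' ∈ H'` are both not
complete to `F` then `c ~ f ↔ c' ~ f` for all `f ∈ F`.  By symmetry let `c ~ f`; suppose `c' ≁ f`.  Let `g ∈ F` with `c ≁ g`.  If
`c' ~ g`: SA.  Let `c' ≁ g`.  `c' ∈ K' ⊆ D'`, `K'` connected, `Pr e s ⊆ K'`, `s < n`; `c' ∉ Pr e s` since `c' ≁ f` and `f` is
complete to the letters.  `K` = the component of `e false s` in `K' \ {c'}` (`exists_comp`): it contains `Pr e s` (`e true s` is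
a neighbour), and touches `c'` (`K'` is connected: otherwise `K` would be closed in `K'`).  `D` contains at least three letters
and `c` touches at most one letter: let `t` be a letter in `D` which `c` does not touch.  SB (`c'` does not touch `t` and `c` has
no neighbour in `K`, because there are no edges between `D` and `D'`).
So `LK.rk G H F ≤ 2` or `LK.rk G H' F ≤ 2`: if all elements of `H` are complete to `F`: `rk_comp`; the same for `H'`; otherwise fix
`c' ∈ H'` not complete to `F`, `T = {f | c' ~ f}`: every `c ∈ H` is complete to `F` or has the trace `T` on `F`: `H` is the union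
of two sets, `rk_union`, `rk_comp`, `rk_one`.  Let this be `H` (the other case is symmetric).  `Hᶜ ⊆ F ∪ W ∪ Z ∪ R`, `R` = the
rest of `D ∪ D'` (a vertex outside `W` is in `F` or in `D ∪ D' ∪ Z` by `Reg.reg` and `hU`).  There are no edges between `H` and `R`: if
`x ∈ H`, `y ∈ D`, `x ~ y` then `y ∈ H` (`Conn.insert`).  So `LK.cr G H = LK.rk G H Hᶜ ≤ 2 + 6 + |Z| + 0` (`rk_union_right`,
`rk_card_right`, `rk_anti`, `rk_mono`). -/
def S_SC : Prop := S_SA → S_SB → ∀ (V : Type) [Finite V] (G : SimpleGraph V) (n : ℕ)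
  (e : Bool → ℕ → V) (W D D' Z : Set V), Reg G n e W → W.ncard ≤ 6 → 4 ≤ n →
    ¬ IMS K401 G Set.univ → (∀ u, u ∈ D ∪ D' ∪ Z ↔ u ∉ W ∧ Lw G n e u) → Disjoint D D' →
    (∀ u ∈ D, ∀ v ∈ D', ¬ G.Adj u v) → 3 ≤ {i | i < n ∧ Pr e i ⊆ D}.ncard →
    3 ≤ {i | i < n ∧ Pr e i ⊆ D'}.ncard →
      LK.cr G (Hd G n e D) ≤ Z.ncard + 8 ∨ LK.cr G (Hd G n e D') ≤ Z.ncard + 8

/-- **RW.** The world.  (Uses `S_SA`, `S_SB`, `S_SC`.)

Proof. `N = β (r + 8) + r + 4`.  `U = {u | u ∉ W ∧ Lw G n e u}` (`Set.toFinset`, classical); the letters are in `U` (`Reg.out`,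
`Lt.lw`).  `sep`: let `P, Z, R` be as in `Wd.sep` and suppose that both `(Lf n e ∩ P).card` and `(Lf n e ∩ R).card` are larger than
`N`.  `D = P ∩ U`, `D' = R ∩ U`, `Z' = Z ∩ U`.  The indices `i < n` with `e false i ∈ P` are more than `N` (`e false` is injective on
`i < n`), for all but at most `r` of them `e true i ∉ Z` and so `e true i ∈ P` (it is adjacent to `e false i` in `GT.ins G U`,
so it is not in `R`): more than `N - r > β (r + 8) + 3` indices `i` with `Pr e i ⊆ D`, the same for `D'`.  All the letters in `D` are in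
`Hd G n e D`, so `(Hd G n e D).ncard > β (r + 8)`, and the complement contains the letters in `D'`: more than `β (r + 8)` vertices;
the same with `D`, `D'` exchanged.  SC (edges between `D` and `D'` are edges of `GT.ins G U`) and `link_false` with
`c = c₀ = r + 8`. -/
def S_RW : Prop := S_SA → S_SB → S_SC → ∀ (r : ℕ) (β : ℕ → ℕ), ∃ N : ℕ, ∀ (V : Type) [Fintype V]
  [DecidableEq V] (G : SimpleGraph V) (n : ℕ) (e : Bool → ℕ → V) (W : Set V), Reg G n e W →
    W.ncard ≤ 6 → 4 ≤ n → ¬ IMS K401 G Set.univ → Rep.Link β (r + 8) G →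
      ∃ U : Finset V, Wd G n e U r N

/-! ### (2) the frame -/

/-- **Hvn.** A haven.

Proof. (Compare `GT/Hv.lean`, copy and adapt.)  Let `X.card < r + 1`.  Call `P` closed if it is disjoint from `X` and has no edges to
the outside of `P ∪ X`.  The complement of `X` is closed and contains at least `|S| - r > N` elements of `S`.  Choose a closed `P` with
`N < (S ∩ P).card` and `P.card` minimal; `R` = the complement of `P ∪ X`.  If `P` is connected and `Big` we are done.  If it is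
connected and not `Big` then `(S ∩ R).card ≥ |S| - r - |S| / 2 > N`.  If it is not connected, it is the disjoint union of two
nonempty sets without edges between them, both closed and smaller, so `(S ∩ P).card ≤ 2 N` and
`(S ∩ R).card ≥ |S| - r - 2 N > N`.  In both cases the hypothesis for `(P, X, R)` is contradicted. -/
def S_Hvn : Prop := ∀ (V : Type) [Fintype V] [DecidableEq V] (Γ : SimpleGraph V) (S : Finset V)
  (r N : ℕ), (∀ P Z R : Finset V, P ∪ Z ∪ R = Finset.univ → Disjoint P Z → Disjoint P R →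
      Disjoint Z R → (∀ u, u ∈ P → ∀ v, v ∈ R → ¬ Γ.Adj u v) → Z.card ≤ r →
        (S ∩ P).card ≤ N ∨ (S ∩ R).card ≤ N) →
    4 * N + 4 * r + 4 ≤ S.card → GT.Hav Γ S (r + 1)

/-- **FrK.** A frame from a `K_t` model.

Proof. `ρ i = b ⟨i, _⟩`, `γ j = b ⟨k + j, _⟩` (`i, j : Fin k`): disjoint connected sets, all pairs touch (`rg`: `Conn.union`;
rows and columns have different indices).  `nb`: `b i` touches another `b j`; if `b i` is a single vertex this
vertex has a neighbour; otherwise use `Conn` for `{x}`.  `deep`: let `2 |Z| < k`.  The hypothesis gives `b i₀ ⊆ D`; `D'` = the union of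
`D` and of all rows which avoid `Z`: connected, since every `b l` touches `b i₀` (or is equal to it) (`Conn.union_iUnion` or
induction).  `k4`: `I` has at least four elements (`68 ≤ k`): four rows `ρ l`, `l ∈ I`; if `c ∉ b i = ρ l` then `l` is the
required row. -/
def S_FrK : Prop := ∀ (V : Type) [Fintype V] [DecidableEq V] (Γ : SimpleGraph V) (S : Finset V)
  (k : ℕ) (b : Fin (2 * k) → Finset V), 68 ≤ k → (∀ i, Conn Γ (b i : Set V)) →
    (∀ i j, i ≠ j → Disjoint (b i) (b j)) →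
    (∀ i j, i ≠ j → Tch Γ (b i : Set V) (b j : Set V)) →
    (∀ Z : Finset V, Z.card < 2 * k → ∃ (i : Fin (2 * k)) (D : Finset V), Conn Γ (D : Set V) ∧
      GT.Big S D ∧ Disjoint Z D ∧ b i ⊆ D) →
    ∃ ρ γ : Fin k → Finset V, Frm Γ S k ρ γ

/-- **FrG.** A frame from a grid model.

Proof. `ρ i` = the union of the `g i j` over `j`, `γ j` = the union of the `g i j` over `i` (`Finset.biUnion`).  Connected by
`hor` resp. `ver` (induction along the row).  `rg`: `ρ i` and `γ j` have the nonempty set `g i j` in common.  `nb`: as in FrK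
(every cell touches another cell).  `deep`: let `2 |Z| < k`; the hypothesis gives `i₀` and `D ⊇ ρ i₀`; at most `|Z|` columns meet
`Z`, so there is a column `γ j` which avoids `Z`; `D' = D ∪ γ j ∪` (the rows which avoid `Z`): connected, all these rows meet `γ j`.
`k4`: at most 64 rows are not in `I`; among the 66 triples `(3 m, 3 m + 1, 3 m + 2)`, `m < 66`, of row indices (`198 ≤ k`) one is
contained in `I`; let it be `i, i + 1, i + 2`; in the same way `j, j + 1, j + 2` in `J`.  `b 0 = g i j ∪ g i (j+1) ∪ g i (j+2)`,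
`b 1 = g (i+1) j`, `b 2 = g (i+1) (j+1)`, `b 3 = g (i+2) j ∪ g (i+2) (j+1) ∪ g (i+2) (j+2) ∪ g (i+1) (j+2)`.  Last condition: let
`c ∉ b l` and let `g i' j' ⊆ b l` be one of its cells; `c` is not in both `ρ i'` and `γ j'`, since `ρ i' ∩ γ j' = g i' j'`
(`GridM.dis`); both meet `b l`. -/
def S_FrG : Prop := ∀ (V : Type) [Fintype V] [DecidableEq V] (Γ : SimpleGraph V) (S : Finset V)
  (k : ℕ) (g : Fin k → Fin k → Finset V), 200 ≤ k → GT.GridM Γ k g →
    (∀ Z : Finset V, 2 * Z.card < k → ∃ (i : Fin k) (D : Finset V), Conn Γ (D : Set V) ∧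
      GT.Big S D ∧ Disjoint Z D ∧ ∀ j, g i j ⊆ D) →
    ∃ ρ γ : Fin k → Finset V, Frm Γ S k ρ γ

/-- **Frm.** Havens have frames.  (Uses `GT.SGK`, `S_FrK`, `S_FrG`.)

Proof. `w` = the number of `GT.SGK` for `t = 2 k`, `r = k`. -/
def S_Frm : Prop := GT.SGK → S_FrK → S_FrG → ∀ k : ℕ, 200 ≤ k → ∃ w : ℕ, ∀ (V : Type) [Fintype V]
  [DecidableEq V] (Γ : SimpleGraph V) (S : Finset V), GT.Hav Γ S w →
    ∃ ρ γ : Fin k → Finset V, Frm Γ S k ρ γ

/-! ### (3) rails -/

/-- **Lea.** Two ends of a minimal connected set which touches five letters.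

Proof. Let `Y' ⊆ Y` be connected with `∀ a, ∃ u ∈ Y', τ u a` and with a minimal number of elements.  `Y'` has at least five
elements.  (i) In a finite connected set `A` with at least two elements and `z ∈ A` there is `y ∈ A`, `y ≠ z`, with `A \ {y}`
connected: choose a component `C` of some `A \ {y}`, `y ≠ z`, with `z ∈ C` and `|C|` maximal; if `C ≠ A \ {y}` there is another
component `C'` of `A \ {y}`; take `y' ∈ C'`: `C ∪ {y}` is connected and avoids `y'`, contained in a larger component.  (Or use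
`SimpleGraph.Connected.exists_connected_induce_compl_singleton_of_finite_nontrivial`.)  Let `y ∈ Y'` with `Y' \ {y}` connected; let
`z ∈ Y' \ {y}` be a neighbour of `y`; by (i) for `A = Y' \ {y}` there is `y' ≠ z` in `A` with `Y' \ {y, y'}` connected; then
`Y' \ {y'}` is connected as well (`y ~ z`).  By minimality some `p` is not touched in `Y' \ {y}` and some `q` is not touched in
`Y' \ {y'}`; `p ≠ q`: `τ y p`, `τ y' q`, and `y'` does not touch `p`. -/
def S_Lea : Prop := ∀ (V : Type) [Finite V] (G : SimpleGraph V) (τ : V → Fin 5 → Prop) (Y : Set V),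
  Conn G Y → (∀ u ∈ Y, ∀ a b, τ u a → τ u b → a = b) → (∀ a, ∃ u ∈ Y, τ u a) →
    ∃ Y' ⊆ Y, ∃ y ∈ Y', ∃ y' ∈ Y', ∃ p q : Fin 5, p ≠ q ∧ (∀ a, ∃ u ∈ Y', τ u a) ∧
      Conn G (Y' \ {y}) ∧ Conn G (Y' \ {y'}) ∧ Conn G (Y' \ {y, y'}) ∧
      (∀ u ∈ Y', τ u p → u = y) ∧ ∀ u ∈ Y', τ u q → u = y'

/-- **Ral.** Five letters and 64 disjoint connected sets which touch all of them.  (Uses `S_Lea`.)

Proof. Suppose that all `Y i` touch all five letters.  The ten vertices of the five letters are in at most ten of the `Y i`;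
for the other `i` (at least 54 of them) use Lea with `τ u a = Tc G e u (l a)`: `Y' i`, `y i`, `y' i`, `(p i, q i)`.  As `54 > 2 * 25`
there are three different `i` (call them `1, 2, 3`) with the same `(p, q)`.  Let `a, b, c` be the other three elements of
`Fin 5`.  M1 with `A = (Y' 1 \ {y' 1}) ∪ Pr e (l a)`, `B = (Y' 2 \ {y 2}) ∪ Pr e (l b)`, `C = Y' 3 \ {y 3, y' 3}`, `D = Pr e (l c)`,
`P = Pr e (l p)`, `Q = Pr e (l q)`.  (`tch_Pr`.  The vertex of `Y' i` which touches `a` is neither `y i` nor `y' i`, since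
`y i` touches `p` and is `Lw`: so `A`, `B`, `C` touch `Pr e (l a)`, .., `Pr e (l c)`; `B` touches `A` in `Pr e (l a)`.  `A` touches `P` by
`y 1`, and no vertex of `A` touches `q`; no vertex of `B` touches `p`; `C` touches neither.) -/
def S_Ral : Prop := S_Lea → ∀ (V : Type) [Finite V] (G : SimpleGraph V) (n : ℕ)
  (e : Bool → ℕ → V), Lt G n e → ¬ IMS K401 G Set.univ → ∀ (l : Fin 5 → ℕ) (Y : Fin 64 → Set V),
    Function.Injective l → (∀ a, l a < n) → (∀ i, Conn G (Y i)) →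
    (∀ i j, i ≠ j → Disjoint (Y i) (Y j)) → (∀ i, ∀ u ∈ Y i, Lw G n e u) →
      ¬ ∀ i a, ∃ u ∈ Y i, Tc G e u (l a)

/-! ### (4) good rows and columns -/

/-- **Lam.** Many letters which touch only few rows and columns.  (Uses `S_Lea`, `S_Ral`.)

Proof. `n₀ = (2 ^ k * 2 ^ k) * (m + 5)`.  For `l < n` let `τ l` = (the set of the `i` such that some `u ∈ ρ i` touches `l`, the set
of the `j` such that some `u ∈ γ j` touches `l`) `∈ Finset (Fin k) × Finset (Fin k)`.  Pigeonhole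
(`Finset.exists_le_card_fiber_of_mul_le_card_of_maps_to`): `Λ ⊆ range n` with at least `m + 5` elements and `τ` constant
`= (I', J')` on `Λ`.  If `64 ≤ |I'|`: Ral with five elements of `Λ` and 64 rows (`conn_ins`; the elements of the rows are in `U` by
`nb` and `ins_mem`, so they are `Lw`): contradiction.  So `|I'| ≤ 63`, `|J'| ≤ 63`; `I`, `J` = the complements. -/
def S_Lam : Prop := S_Lea → S_Ral → ∀ k m : ℕ, ∃ n₀ : ℕ, ∀ (V : Type) [Fintype V] [DecidableEq V]
  (G : SimpleGraph V) (n : ℕ) (e : Bool → ℕ → V) (U S : Finset V) (ρ γ : Fin k → Finset V),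
    n₀ ≤ n → Lt G n e → (∀ u ∈ U, Lw G n e u) → ¬ IMS K401 G Set.univ →
    Frm (GT.ins G U) S k ρ γ → ∃ (Λ : Finset ℕ) (I J : Finset (Fin k)), (∀ l ∈ Λ, l < n) ∧
      m ≤ Λ.card ∧ k ≤ I.card + 64 ∧ k ≤ J.card + 64 ∧
      (∀ i ∈ I, ∀ u ∈ ρ i, ∀ l ∈ Λ, ¬ Tc G e u l) ∧ ∀ j ∈ J, ∀ u ∈ γ j, ∀ l ∈ Λ, ¬ Tc G e u l

/-! ### (5) paths -/

/-- **Lnk.** Disjoint paths from the letters in `Λ` to good rows.  (Uses `GT.SMen`.)

Proof. `GT.SMen`: let `Cut Γ A B L X`, `Γ = GT.ins G U`, `A = Λ.image (e false)`, `B = I.image y`; claim `q ≤ X.card`.  Suppose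
`X.card < q`.  `2 X.card < k`: `Frm.deep` gives `D`.  The rows are disjoint, so at most `X.card` of them meet `X`, and
`|I| ≥ k - 64 > X.card`: there is `i ∈ I` with `Disjoint (ρ i) X`, so `y i ∈ D`.  `y i ∉ L` (`Cut.last`), so `Disjoint D L`
(`out_of_cut`).  `Wd.sep` for `P = L`, `Z = X`, `R` = the complement of `L ∪ X` (`Cut.far`; `X.card ≤ r`):
`(Lf n e ∩ L).card ≤ N` or `(Lf n e ∩ R).card ≤ N`.  `Lf n e ∩ L ⊇ A \ X` has at least `|Λ| - X.card > N` elements (`e false` is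
injective on `i < n`), `Lf n e ∩ R ⊇ Lf n e ∩ D` has more than `n / 2 ≥ N` elements (`GT.Big`; `(Lf n e).card = n`): contradiction. -/
def S_Lnk : Prop := GT.SMen → ∀ (V : Type) [Fintype V] [DecidableEq V] (G : SimpleGraph V)
  (n : ℕ) (e : Bool → ℕ → V) (U : Finset V) (r N k q : ℕ) (ρ γ : Fin k → Finset V) (Λ : Finset ℕ)
  (I : Finset (Fin k)) (y : Fin k → V), Wd G n e U r N → Frm (GT.ins G U) (Lf n e) k ρ γ →
    (∀ l ∈ Λ, l < n) → N + q ≤ Λ.card → 2 * N ≤ n → q ≤ r → 2 * q + 130 ≤ k →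
    k ≤ I.card + 64 → (∀ i, y i ∈ ρ i) →
      ∃ n' p, GT.Lkg (GT.ins G U) (Λ.image (e false)) (I.image y) q n' p

/-- **Tail.** The tail of a path after the last vertex which touches the letter.

Proof. `p 0 = e false l` touches `l`; `p m` does not.  Let `s < m` be the largest index such that `p s` touches `l`.
`x = p s`, `T = GT.seg p s (m + 1)`; `GT.conn_seg`.  `p s ∉ Pr e l`: otherwise `p (s + 1)`, adjacent to it, would touch `l`; the other
elements of `T` do not touch `l`, so they are not in `Pr e l` (`Lt.tc`). -/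
def S_Tail : Prop := ∀ (V : Type) [Fintype V] [DecidableEq V] (G : SimpleGraph V) (n : ℕ)
  (e : Bool → ℕ → V) (U : Finset V) (l m : ℕ) (p : ℕ → V), Lt G n e → l < n → p 0 = e false l →
    (∀ i < m, (GT.ins G U).Adj (p i) (p (i + 1))) → ¬ Tc G e (p m) l →
      ∃ (x : V) (T : Finset V), x ∈ T ∧ p m ∈ T ∧ T ⊆ GT.seg p 0 (m + 1) ∧
        Conn (GT.ins G U) (T : Set V) ∧ Tc G e x l ∧ (∀ u ∈ T, Tc G e u l → u = x) ∧
        Disjoint (T : Set V) (Pr e l)

/-- **Tri.** Three paths without touches to the other letters.  (Uses `W.S_RamC`, `S_Lea`, `S_Ral`, `S_Tail`.)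

Proof. `q` = the number of `W.S_RamC` for `κ = Bool × Bool` and `69` (use `p ⟨i, _⟩` for `i < q`).  Let `p i`, `i : Fin q`, be the
paths; `p i 0 = e false (λ i)` with `λ i ∈ Λ`; `λ` is injective (disjoint paths).  `Y i` = the set of the vertices of `p i`: connected
(`GT.conn_seg`, `conn_ins`), `⊆ U` (if the length is positive by `ins_mem`; if it is `0` the vertex is in a letter: `mem`), disjoint.
Colour of `(i, j)`: (some `u ∈ Y j` touches `λ i`, some `u ∈ Y i` touches `λ j`).  `σ` of length `69`, constant colour for `i < j`.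
First component `true`: Ral with the letters `λ (σ a)`, `a < 5`, and the sets `Y (σ (5 + i))`, `i < 64`: contradiction.  Second
component `true`: Ral with the letters `λ (σ (64 + a))`, `a < 5`, and the sets `Y (σ i)`, `i < 64`: contradiction.  So both are
`false`; take the indices `σ 0, σ 1, σ 2` and the tails (Tail; the last vertex of a path is in `B` and does not touch its
letter): `l i = λ (σ i)`, `T i ⊆ Y (σ i)`, `z i` = the last vertex.  `Disjoint (T i) (Pr e (l j))` for `i ≠ j`: a vertex of `Pr e (l j)`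
touches `l j` (`Lt.tc`), the vertices of `Y (σ i)` do not. -/
def S_Tri : Prop := W.S_RamC → S_Lea → S_Ral → S_Tail → ∃ q : ℕ, ∀ (V : Type) [Fintype V]
  [DecidableEq V] (G : SimpleGraph V) (n : ℕ) (e : Bool → ℕ → V) (U B : Finset V) (Λ : Finset ℕ)
  (n' : Fin q → ℕ) (p : Fin q → ℕ → V), Lt G n e → (∀ i < n, ∀ s, e s i ∈ U) →
    (∀ u ∈ U, Lw G n e u) → ¬ IMS K401 G Set.univ → (∀ l ∈ Λ, l < n) →
    (∀ u ∈ B, ∀ l ∈ Λ, ¬ Tc G e u l) →
    GT.Lkg (GT.ins G U) (Λ.image (e false)) B q n' p →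
      ∃ (l : Fin 3 → ℕ) (x z : Fin 3 → V) (T : Fin 3 → Finset V), Function.Injective l ∧
        (∀ i, l i ∈ Λ ∧ x i ∈ T i ∧ z i ∈ T i ∧ z i ∈ B ∧ T i ⊆ U ∧
          Conn (GT.ins G U) (T i : Set V) ∧ Tc G e (x i) (l i)) ∧
        (∀ i j, i ≠ j → Disjoint (T i) (T j)) ∧
        (∀ i j, ∀ u ∈ T i, Tc G e u (l j) → i = j ∧ u = x i) ∧
        ∀ i j, Disjoint (T i : Set V) (Pr e (l j))

/-! ### (6) rooted `K_4` models -/

/-- **K4S.** Two different vertices of a minimal `K_4` model can be put in different branch sets.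

Proof. Choose `T j ⊆ b j` (`j : Fin 4`), connected and pairwise touching, with the least total number of elements; `M` = the
union.  Let `z ≠ z'` in `M`.  If `z ∈ T i`, `z' ∈ T j`, `i ≠ j`: a permutation of the `T`.  Let `z, z' ∈ T 0` (w.l.o.g.; permutation).
`A'` = the component of `z'` in `T 0 \ {z}` (`exists_comp`), `A = T 0 \ A'`.  `A` is connected: it contains `z`; a nonempty proper subset
of `A` without edges to the rest of `A` which does not contain `z` would be closed in `T 0` (there are no edges from `A'` to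
`A \ {z}`), contradiction.  `A` and `A'` touch (`T 0` is connected).  Let `a ⊆ {1, 2, 3}` be the set of the `j` such that `A` touches
`T j`, `a'` the same for `A'`: `a ∪ a' = {1, 2, 3}`.  `a ≠ ∅`: otherwise `A', T 1, T 2, T 3` would be smaller; the same for `a'`.
So there is `j` such that (`j ∈ a'` and `{1, 2, 3} \ {j} ⊆ a`) or (`j ∈ a` and `{1, 2, 3} \ {j} ⊆ a'`) (finite check).  In the first
case `A`, `T j ∪ A'`, and the other two `T`'s are the model: `z ∈ A`, `z' ∈ T j ∪ A'`; the second case is symmetric: `A'`,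
`T j ∪ A`. -/
def S_K4S : Prop := ∀ (V : Type) [Fintype V] [DecidableEq V] (Γ : SimpleGraph V)
  (b : Fin 4 → Finset V), (∀ i, Conn Γ (b i : Set V)) → (∀ i j, i ≠ j → Disjoint (b i) (b j)) →
    (∀ i j, i ≠ j → Tch Γ (b i : Set V) (b j : Set V)) → ∃ M : Finset V,
      (∀ j, ∃ z ∈ M, z ∈ b j) ∧
      ∀ z ∈ M, ∀ z' ∈ M, z ≠ z' → ∃ T : Fin 4 → Finset V, (∀ i, Conn Γ (T i : Set V)) ∧
        (∀ i j, i ≠ j → Disjoint (T i) (T j)) ∧
        (∀ i j, i ≠ j → Tch Γ (T i : Set V) (T j : Set V)) ∧ (∀ i, T i ⊆ M) ∧ z ∈ T 0 ∧ z' ∈ T 1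

/-- **K4R.** A rooted `K_4` model.  (Uses `GT.SMen`, `S_K4S`.)

Proof. `M` from K4S.  `GT.SMen` gives `GT.Lkg Γ X M 2 n p`: let `Cut Γ X M L Z` and suppose `Z.card ≤ 1`; let `c` be the
element of `Z` (any vertex if `Z` is empty) and `D`, `j` as in the hypothesis: `D` avoids `Z`, contains an element of `X ⊆ L ∪ Z`,
so an element of `L`, and an element of `M ∩ b j ⊆ D`, which is not in `L` (`Cut.last`): contradiction to `out_of_cut`.  Let
`p 0`, `p 1` be the paths; for `i : Fin 2` let `s i ≤ n i` be the least index with `p i (s i) ∈ M`; `z = p 0 (s 0)`,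
`z' = p 1 (s 1)`, `z ≠ z'`; `T` from K4S.  `T' 0 = T 0 ∪ GT.seg (p 0) 0 (s 0 + 1)`, `T' 1 = T 1 ∪ GT.seg (p 1) 0 (s 1 + 1)`,
`T' 2 = T 2`, `T' 3 = T 3`; `x = p 0 0`, `x' = p 1 0`.  (`GT.conn_seg`; the segments meet `M` only in `z` resp. `z'` and are disjoint
from each other.) -/
def S_K4R : Prop := GT.SMen → S_K4S → ∀ (V : Type) [Fintype V] [DecidableEq V]
  (Γ : SimpleGraph V) (b : Fin 4 → Finset V) (X : Finset V), (∀ i, Conn Γ (b i : Set V)) →
    (∀ i j, i ≠ j → Disjoint (b i) (b j)) →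
    (∀ i j, i ≠ j → Tch Γ (b i : Set V) (b j : Set V)) →
    (∀ c : V, ∃ (D : Finset V) (j : Fin 4), Conn Γ (D : Set V) ∧ c ∉ D ∧ (∃ x ∈ X, x ∈ D) ∧
      b j ⊆ D) →
    ∃ (T : Fin 4 → Finset V) (x x' : V), (∀ i, Conn Γ (T i : Set V)) ∧
      (∀ i j, i ≠ j → Disjoint (T i) (T j)) ∧
      (∀ i j, i ≠ j → Tch Γ (T i : Set V) (T j : Set V)) ∧ x ∈ X ∧ x' ∈ X ∧ x ≠ x' ∧ x ∈ T 0 ∧
      x' ∈ T 1

/-- **F3.** Three free paths and a frame give `K4:0,1`.  (Uses the conclusion of `S_K4R` as a hypothesis.)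

Proof. `Wf` = the union of the `T i` (`i : Fin 3`), of the rows `ρ i`, `i ∈ I`, and of the columns `γ j`, `j ∈ J`; `Wf ⊆ U`
(`Frm.nb`, `ins_mem`); `Γ = GT.ins G Wf`; sets which are contained in `Wf` and connected in `GT.ins G U` are connected in `Γ`
(`conn_ins`, `conn_ins_of`).  `b` from `Frm.k4 I J`: `b i ⊆ Wf`.  The hypothesis (K4R) for `Γ`, `b`, `X = {x 0, x 1, x 2}`: let `c` be a vertex.
At most one of the disjoint sets `T i` and at most one of the disjoint sets `ρ (m i)` contains `c`, so for some `i : Fin 3`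
`c ∉ T i`, `c ∉ ρ (m i)`.  `J` has at least two elements: `c ∉ γ j` for some `j ∈ J`.  At most one `b l` contains `c`: let `c ∉ b l`.
By `Frm.k4` there is a row `ρ i'` (`i' ∈ I`) or a column `γ j'` (`j' ∈ J`) which avoids `c` and meets `b l`.  `D = T i ∪ ρ (m i) ∪ γ j
∪ ρ i' ∪ b l` resp. `T i ∪ ρ (m i) ∪ γ j' ∪ b l`: connected (`z i` is in `T i` and in `ρ (m i)`; `Frm.rg`).  So K4R gives
`B : Fin 4 → Finset V` and `x i ∈ B 0`, `x i' ∈ B 1`, `i ≠ i'` (the `x i` are different).  `B j ⊆ Wf` (`sub_of_tch`).  The only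
vertex of `Wf` which touches the letter `l i` is `x i` (hypotheses), and `Wf` is disjoint from the letters `l i`, `l i'` (a vertex of a
letter touches it).  M1 with `B 0, B 1, B 2, B 3`, `P = Pr e (l i)`, `Q = Pr e (l i')` (`conn_ins`, `tch_ins`). -/
def S_F3 : Prop := (∀ (V : Type) [Fintype V] [DecidableEq V]
  (Γ : SimpleGraph V) (b : Fin 4 → Finset V) (X : Finset V), (∀ i, Conn Γ (b i : Set V)) →
    (∀ i j, i ≠ j → Disjoint (b i) (b j)) →
    (∀ i j, i ≠ j → Tch Γ (b i : Set V) (b j : Set V)) →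
    (∀ c : V, ∃ (D : Finset V) (j : Fin 4), Conn Γ (D : Set V) ∧ c ∉ D ∧ (∃ x ∈ X, x ∈ D) ∧
      b j ⊆ D) →
    ∃ (T : Fin 4 → Finset V) (x x' : V), (∀ i, Conn Γ (T i : Set V)) ∧
      (∀ i j, i ≠ j → Disjoint (T i) (T j)) ∧
      (∀ i j, i ≠ j → Tch Γ (T i : Set V) (T j : Set V)) ∧ x ∈ X ∧ x' ∈ X ∧ x ≠ x' ∧ x ∈ T 0 ∧
      x' ∈ T 1) →
  ∀ (V : Type) [Fintype V] [DecidableEq V] (G : SimpleGraph V) (n : ℕ) (e : Bool → ℕ → V)
    (U S : Finset V) (k : ℕ) (ρ γ : Fin k → Finset V) (I J : Finset (Fin k)) (l : Fin 3 → ℕ)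
    (x z : Fin 3 → V) (T : Fin 3 → Finset V) (m : Fin 3 → Fin k), Lt G n e → 70 ≤ k →
    Frm (GT.ins G U) S k ρ γ → k ≤ I.card + 64 → k ≤ J.card + 64 → Function.Injective l →
    Function.Injective m → (∀ i, l i < n ∧ m i ∈ I ∧ x i ∈ T i ∧ z i ∈ T i ∧ z i ∈ ρ (m i) ∧
      T i ⊆ U ∧ Conn (GT.ins G U) (T i : Set V) ∧ Tc G e (x i) (l i)) →
    (∀ i j, i ≠ j → Disjoint (T i) (T j)) →
    (∀ i j, ∀ u ∈ T i, Tc G e u (l j) → i = j ∧ u = x i) →
    (∀ i j, Disjoint (T i : Set V) (Pr e (l j))) →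
    (∀ i ∈ I, ∀ u ∈ ρ i, ∀ j, ¬ Tc G e u (l j)) → (∀ i ∈ J, ∀ u ∈ γ i, ∀ j, ¬ Tc G e u (l j)) →
      IMS K401 G Set.univ

/-! ### the theorems -/

/-- **WD.** Large worlds contain `K4:0,1`.  (The hypotheses are the conclusions of the statements named in the
comments.)

Proof. `q` from Tri; `k = 2 q + 200`; `w` from Frm for `k`; `r = max w q`.  Given `N`: `n₁` from Lam for `k` and `m = N + q`;
`n₀ = max n₁ (4 N + 4 r + 4)`.  `Wd.sep` and Hvn (`(Lf n e).card = n`) give `GT.Hav (GT.ins G U) (Lf n e) (r + 1)`, so a haven of order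
`w` (`GT.Hav` is monotone), Frm gives `ρ, γ`; suppose `K4:0,1` is not an induced minor; Lam gives `Λ, I, J`; `y i ∈ ρ i` by `Frm.rc`;
Lnk: the paths; Tri with `B = I.image y`; `z i = y (m i)`, `m i ∈ I`; `m` is injective because the `T i` are disjoint; F3. -/
def S_WD : Prop := W.S_RamC → GT.SMen → S_Lea → S_Ral → S_Tail → S_Tri → S_Lam → S_Lnk → S_Hvn →
  -- the conclusion of `S_Frm`
  (∀ k : ℕ, 200 ≤ k → ∃ w : ℕ, ∀ (V : Type) [Fintype V]
    [DecidableEq V] (Γ : SimpleGraph V) (S : Finset V), GT.Hav Γ S w →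
      ∃ ρ γ : Fin k → Finset V, Frm Γ S k ρ γ) →
  -- the conclusion of `S_F3`
  (∀ (V : Type) [Fintype V] [DecidableEq V] (G : SimpleGraph V) (n : ℕ) (e : Bool → ℕ → V)
    (U S : Finset V) (k : ℕ) (ρ γ : Fin k → Finset V) (I J : Finset (Fin k)) (l : Fin 3 → ℕ)
    (x z : Fin 3 → V) (T : Fin 3 → Finset V) (m : Fin 3 → Fin k), Lt G n e → 70 ≤ k →
    Frm (GT.ins G U) S k ρ γ → k ≤ I.card + 64 → k ≤ J.card + 64 → Function.Injective l →
    Function.Injective m → (∀ i, l i < n ∧ m i ∈ I ∧ x i ∈ T i ∧ z i ∈ T i ∧ z i ∈ ρ (m i) ∧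
      T i ⊆ U ∧ Conn (GT.ins G U) (T i : Set V) ∧ Tc G e (x i) (l i)) →
    (∀ i j, i ≠ j → Disjoint (T i) (T j)) →
    (∀ i j, ∀ u ∈ T i, Tc G e u (l j) → i = j ∧ u = x i) →
    (∀ i j, Disjoint (T i : Set V) (Pr e (l j))) →
    (∀ i ∈ I, ∀ u ∈ ρ i, ∀ j, ¬ Tc G e u (l j)) → (∀ i ∈ J, ∀ u ∈ γ i, ∀ j, ¬ Tc G e u (l j)) →
      IMS K401 G Set.univ) →
  ∃ r : ℕ, ∀ N : ℕ, ∃ n₀ : ℕ, ∀ (V : Type) [Fintype V] [DecidableEq V] (G : SimpleGraph V)
    (n : ℕ) (e : Bool → ℕ → V) (U : Finset V), n₀ ≤ n → Wd G n e U r N → IMS K401 G Set.univ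

/-- **RG.** REG.  (The hypotheses are the conclusions of `S_RW` and `S_WD`.)

Proof. `r` from WD, `c₀ = r + 8`, `N` from RW for `r, β`, `n₀` = the maximum of `4` and the number of WD for `N`. -/
def S_RG : Prop :=
  (∀ (r : ℕ) (β : ℕ → ℕ), ∃ N : ℕ, ∀ (V : Type) [Fintype V]
    [DecidableEq V] (G : SimpleGraph V) (n : ℕ) (e : Bool → ℕ → V) (W : Set V), Reg G n e W →
      W.ncard ≤ 6 → 4 ≤ n → ¬ IMS K401 G Set.univ → Rep.Link β (r + 8) G →
        ∃ U : Finset V, Wd G n e U r N) →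
  (∃ r : ℕ, ∀ N : ℕ, ∃ n₀ : ℕ, ∀ (V : Type) [Fintype V] [DecidableEq V] (G : SimpleGraph V)
    (n : ℕ) (e : Bool → ℕ → V) (U : Finset V), n₀ ≤ n → Wd G n e U r N → IMS K401 G Set.univ) →
  ∀ β : ℕ → ℕ, ∃ c₀ n₀ : ℕ, ∀ (V : Type) [Finite V] (G : SimpleGraph V) (e : Bool → ℕ → V)
    (W : Set V), ¬ IMS K401 G Set.univ → Rep.Link β c₀ G → W.ncard ≤ 6 → ¬ Reg G n₀ e W

/-- **NK.** No large induced matchings in linked graphs.  (The hypotheses are `CH.S_Mp` without its hypothesis, the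
conclusion of `S_PtA`, and the conclusion of `S_RG`.)

Proof. Let `t`, `β` be given.  `c₁, m` from the first hypothesis, `c₂, m'` from the last one (for `β`), `N` from the second one for
`t, m, m'`; `c₀ = max c₁ c₂` (`link_mono`).  `lt_of_tp`. -/
def S_NK : Prop :=
  (∀ (t : ℕ) (β : ℕ → ℕ), ∃ c₀ n : ℕ, ∀ (V : Type) [Finite V] (G : SimpleGraph V),
    Rep.Fr K401 (JP t) G → Rep.Link β c₀ G → ∀ (v : ℕ → V) (e : Bool → ℕ → V), ¬ Ch G n v e) →
  (∀ t m m' : ℕ, ∃ N : ℕ, ∀ (V : Type) [Finite V] (G : SimpleGraph V) (e : Bool → ℕ → V),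
    ¬ IMS K401 G Set.univ → ¬ IMS (JP t) G Set.univ → Lt G N e →
      (∃ (v : ℕ → V) (e' : Bool → ℕ → V), Ch G m v e') ∨
      ∃ (e' : Bool → ℕ → V) (W : Set V), W.ncard ≤ 6 ∧ Reg G m' e' W) →
  (∀ β : ℕ → ℕ, ∃ c₀ n₀ : ℕ, ∀ (V : Type) [Finite V] (G : SimpleGraph V) (e : Bool → ℕ → V)
    (W : Set V), ¬ IMS K401 G Set.univ → Rep.Link β c₀ G → W.ncard ≤ 6 → ¬ Reg G n₀ e W) →
  ∀ t : ℕ, Rep.Kill K401 (JP t) false false false

end Pool.Agent.MPd439b2.NK
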